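import Mathlib

set_option autoImplicit false

namespace Pool.Agent.P.MP_1f07eb_co

open Finset

section comb

variable {α : Type*} [DecidableEq α]

lemma exists_stress (m : ℕ) (V : Finset α) (E : Finset (Finset α))
    (hbig : V.card.choose m < E.card) :
    ∃ Z : E → ℚ, Z ≠ 0 ∧ ∀ T ⊆ V, T.card = m → ∑ e : E, (if T ⊆ e.1 then Z e else 0) = 0 := by
  classical
  let K : Finset (Finset α) := V.powersetCard m
  let L : (E → ℚ) →ₗ[ℚ] (K → ℚ) :=
    { toFun := fun Z k => ∑ e : E, (if k.1 ⊆ e.1 then Z e else 0)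
      map_add' := by
        intro Z₁ Z₂
        funext k
        simp only [Pi.add_apply, ← Finset.sum_add_distrib]
        refine Finset.sum_congr rfl fun e _ => ?_
        split_ifs <;> simp
      map_smul' := by
        intro c Z
        funext k
        simp only [Pi.smul_apply, smul_eq_mul, RingHom.id_apply, Finset.mul_sum]
        refine Finset.sum_congr rfl fun e _ => ?_
        split_ifs <;> simp }
  have hker : LinearMap.ker L ≠ ⊥ := by
    apply LinearMap.ker_ne_bot_of_finrank_lt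
    simp only [Module.finrank_fintype_fun_eq_card, Fintype.card_coe, K,
      Finset.card_powersetCard]
    exact hbig
  obtain ⟨Z, hZ, hZ0⟩ := Submodule.exists_mem_ne_zero_of_ne_bot hker
  refine ⟨Z, hZ0, fun T hT hc => ?_⟩
  exact congrFun (LinearMap.mem_ker.1 hZ) ⟨T, Finset.mem_powersetCard.2 ⟨hT, hc⟩⟩

lemma stress_down (m : ℕ) (V : Finset α) (E : Finset (Finset α))
    (hE : ∀ e ∈ E, e ⊆ V ∧ e.card = m + 1) (Z : E → ℚ)
    (hZ : ∀ T ⊆ V, T.card = m → ∑ e : E, (if T ⊆ e.1 then Z e else 0) = 0) :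
    ∀ j : ℕ, ∀ T ⊆ V, T.card + j = m → ∑ e : E, (if T ⊆ e.1 then Z e else 0) = 0 := by
  intro j
  induction j with
  | zero => intro T hT hc; exact hZ T hT (by simpa using hc)
  | succ j ih =>
    intro T hT hc
    have h1 : ∑ v ∈ V \ T, ∑ e : E, (if insert v T ⊆ e.1 then Z e else 0) = 0 := by
      apply Finset.sum_eq_zero
      intro v hv
      obtain ⟨hvV, hvT⟩ := Finset.mem_sdiff.1 hv
      apply ih _ (Finset.insert_subset hvV hT)
      rw [Finset.card_insert_of_notMem hvT]
      omega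
    rw [Finset.sum_comm] at h1
    have h2 : ∀ e : E, ∑ v ∈ V \ T, (if insert v T ⊆ e.1 then Z e else 0) =
        ((j : ℚ) + 2) * (if T ⊆ e.1 then Z e else 0) := by
      intro e
      by_cases hTe : T ⊆ e.1
      · rw [if_pos hTe, ← Finset.sum_filter]
        have : (V \ T).filter (fun v => insert v T ⊆ e.1) = e.1 \ T := by
          ext v
          simp only [Finset.mem_filter, Finset.mem_sdiff, Finset.insert_subset_iff]
          constructor
          · rintro ⟨⟨_, h⟩, h', _⟩; exact ⟨h', h⟩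
          · rintro ⟨h, h'⟩; exact ⟨⟨(hE _ e.2).1 h, h'⟩, h, hTe⟩
        rw [this, Finset.sum_const, Finset.card_sdiff_of_subset hTe, (hE _ e.2).2]
        have : m + 1 - T.card = j + 2 := by omega
        rw [this]
        simp
      · rw [if_neg hTe, mul_zero]
        apply Finset.sum_eq_zero
        intro v _
        rw [if_neg]
        intro h
        exact hTe ((Finset.subset_insert _ _).trans h)
    simp only [h2, ← Finset.mul_sum] at h1
    have h3 : ((j : ℚ) + 2) ≠ 0 := by positivity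
    exact (mul_eq_zero.1 h1).resolve_left h3

lemma exists_cycle (m : ℕ) (V : Finset α) (E : Finset (Finset α))
    (hE : ∀ e ∈ E, e ⊆ V ∧ e.card = m + 1)
    (hbig : V.card.choose m < E.card) :
    ∃ Z : E → ℚ, Z ≠ 0 ∧ ∀ w : α → ℚ,
      ∑ e : E, Z e * ∏ x ∈ e.1, (1 + - w x) = ∑ e : E, Z e * ∏ x ∈ e.1, (- w x) := by
  classical
  obtain ⟨Z, hZ0, hZ⟩ := exists_stress m V E hbig
  refine ⟨Z, hZ0, fun w => ?_⟩
  have hd := stress_down m V E hE Z hZ
  let K : Finset (Finset α) := V.powerset.filter (fun T => T.card ≤ m)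
  have h1 : ∀ e : E, Z e * ∏ x ∈ e.1, (1 + - w x) = Z e * ∏ x ∈ e.1, (- w x) +
      ∑ T ∈ K, (∏ x ∈ T, (- w x)) * (if T ⊆ e.1 then Z e else 0) := by
    intro e
    obtain ⟨heV, hec⟩ := hE _ e.2
    rw [Finset.prod_one_add, ← Finset.add_sum_erase _ _ (Finset.mem_powerset_self e.1), mul_add]
    congr 1
    have : (e.1.powerset).erase e.1 = K.filter (fun T => T ⊆ e.1) := by
      ext T
      simp only [K, Finset.mem_erase, Finset.mem_powerset, Finset.mem_filter]
      constructor
      · rintro ⟨h1, h2⟩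
        refine ⟨⟨h2.trans heV, ?_⟩, h2⟩
        have := Finset.card_lt_card (Finset.ssubset_iff_subset_ne.2 ⟨h2, h1⟩)
        omega
      · rintro ⟨⟨_, h1⟩, h2⟩
        refine ⟨?_, h2⟩
        rintro rfl
        omega
    rw [this, Finset.sum_filter, Finset.mul_sum]
    refine Finset.sum_congr rfl fun T _ => ?_
    split_ifs <;> simp [mul_comm]
  simp only [h1, Finset.sum_add_distrib]
  rw [Finset.sum_comm (s := Finset.univ) (t := K)]
  have h2 : ∑ T ∈ K, ∑ e : E, (∏ x ∈ T, (- w x)) * (if T ⊆ e.1 then Z e else 0) = 0 := by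
    apply Finset.sum_eq_zero
    intro T hT
    simp only [K, Finset.mem_filter, Finset.mem_powerset] at hT
    rw [← Finset.mul_sum, hd (m - T.card) T hT.1 (by omega), mul_zero]
  rw [h2, add_zero]

lemma exists_split (m : ℕ) (V : Finset α) (E : Finset (Finset α))
    (hE : ∀ e ∈ E, e ⊆ V ∧ e.card = m + 1)
    (hbig : V.card.choose m < E.card) :
    ∃ s ∈ E, ∀ p : α → Prop, ∃ N ⊆ s, ∃ e ∈ E, ∃ f ∈ E,
      (∀ x ∈ e, (x ∈ s → x ∉ N) ∧ (x ∉ s → p x)) ∧
      (∀ x ∈ f, (x ∈ s → x ∈ N) ∧ (x ∉ s → ¬ p x)) := by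
  classical
  obtain ⟨Z, hZ0, hZ⟩ := exists_cycle m V E hE hbig
  obtain ⟨s, hs⟩ : ∃ s : E, Z s ≠ 0 := by
    by_contra h
    push Not at h
    exact hZ0 (funext h)
  refine ⟨s.1, s.2, fun p => ?_⟩
  let w : Finset α → α → ℚ := fun N x =>
    if x ∈ s.1 then (if x ∈ N then 0 else 1) else (if p x then 1 else 0)
  let c : E → ℚ := fun e => ∏ x ∈ e.1, (if x ∈ s.1 then -1 else (if p x then -1 else 0))
  have hprod : ∀ N ∈ s.1.powerset, ∀ e : E, (∏ i ∈ N, (-1 : ℚ)) * ∏ x ∈ e.1, (- w N x) =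
      c e * ∏ i ∈ N, (if i ∈ e.1 then 0 else -1) := by
    intro N hN e
    have hNs : N ⊆ s.1 := Finset.mem_powerset.1 hN
    by_cases hd : ∃ i ∈ N, i ∈ e.1
    · obtain ⟨i, hi, hie⟩ := hd
      rw [Finset.prod_eq_zero hie (by simp [w, hNs hi, hi]),
        Finset.prod_eq_zero (s := N) (f := fun i => if i ∈ e.1 then (0 : ℚ) else -1) hi
          (by simp [hie]), mul_zero, mul_zero]
    · push Not at hd
      rw [mul_comm]
      congr 1
      · refine Finset.prod_congr rfl fun x hx => ?_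
        have : x ∉ N := fun h => hd x h hx
        simp only [w, this, if_false]
        split_ifs <;> simp
      · refine Finset.prod_congr rfl fun x hx => ?_
        simp [hd x hx]
  have hsum : ∑ N ∈ s.1.powerset, (∏ i ∈ N, (-1 : ℚ)) * ∑ e : E, Z e * ∏ x ∈ e.1, (- w N x)
      = Z s * c s := by
    simp only [Finset.mul_sum]
    rw [Finset.sum_comm]
    have : ∀ e : E, ∑ N ∈ s.1.powerset, (∏ i ∈ N, (-1 : ℚ)) * (Z e * ∏ x ∈ e.1, (- w N x)) =
        Z e * c e * ∏ i ∈ s.1, (1 + (if i ∈ e.1 then (0 : ℚ) else -1)) := by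
      intro e
      rw [Finset.prod_one_add, Finset.mul_sum]
      refine Finset.sum_congr rfl fun N hN => ?_
      rw [mul_left_comm, hprod N hN e, mul_assoc]
    simp only [this]
    rw [Finset.sum_eq_single s]
    · have h2 : ∏ i ∈ s.1, (1 + (if i ∈ s.1 then (0 : ℚ) else -1)) = 1 :=
        Finset.prod_eq_one fun x hx => by simp [hx]
      rw [h2]; simp
    · intro e _ hes
      have : ∃ i ∈ s.1, i ∉ e.1 := by
        by_contra h
        push Not at h
        apply hes
        apply Subtype.ext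
        symm
        apply Finset.eq_of_subset_of_card_le h
        rw [(hE _ e.2).2, (hE _ s.2).2]
      obtain ⟨i, hi, hie⟩ := this
      rw [Finset.prod_eq_zero hi (by simp [hie]), mul_zero]
    · intro h; exact absurd (Finset.mem_univ _) h
  have hc : c s ≠ 0 := Finset.prod_ne_zero_iff.2 fun x hx => by simp [hx]
  obtain ⟨N, hN, hF⟩ : ∃ N ∈ s.1.powerset, ∑ e : E, Z e * ∏ x ∈ e.1, (- w N x) ≠ 0 := by
    by_contra h
    push Not at h
    apply mul_ne_zero hs hc
    rw [← hsum]
    exact Finset.sum_eq_zero fun N hN => by rw [h N hN, mul_zero]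
  have hF' := hF
  rw [← hZ (w N)] at hF'
  obtain ⟨e, -, he⟩ := Finset.exists_ne_zero_of_sum_ne_zero hF
  obtain ⟨f, -, hf⟩ := Finset.exists_ne_zero_of_sum_ne_zero hF'
  have he' := Finset.prod_ne_zero_iff.1 (right_ne_zero_of_mul he)
  have hf' := Finset.prod_ne_zero_iff.1 (right_ne_zero_of_mul hf)
  refine ⟨N, Finset.mem_powerset.1 hN, e.1, e.2, f.1, f.2, fun x hx => ⟨?_, ?_⟩,
    fun x hx => ⟨?_, ?_⟩⟩
  · intro h1 h2
    exact he' x hx (by simp [w, h1, h2])
  · intro h1
    by_contra h2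
    exact he' x hx (by simp [w, h1, h2])
  · intro h1
    by_contra h2
    exact hf' x hx (by simp [w, h1, h2])
  · intro h1 h2
    exact hf' x hx (by simp [w, h1, h2])

end comb

end Pool.Agent.P.MP_1f07eb_co
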