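import Mathlib
import Pool.Agent.P.MP_1f07eb_co.Parity

set_option autoImplicit false

namespace Pool.Agent.P.MP_1f07eb_co

open Finset

lemma span_top {d : ℕ} (S : Finset (EuclideanSpace ℝ (Fin d))) (hc : S.card = d + 1)
    (hS : AffineIndependent ℝ (fun x : S => (x : EuclideanSpace ℝ (Fin d)))) :
    affineSpan ℝ (Set.range (fun x : S => (x : EuclideanSpace ℝ (Fin d)))) = ⊤ := by
  rw [hS.affineSpan_eq_top_iff_card_eq_finrank_add_one]
  simp [hc]

lemma exists_affine {d : ℕ} (S : Finset (EuclideanSpace ℝ (Fin d))) (hc : S.card = d + 1)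
    (hS : AffineIndependent ℝ (fun x : S => (x : EuclideanSpace ℝ (Fin d))))
    (φ : EuclideanSpace ℝ (Fin d) → ℝ) :
    ∃ g : EuclideanSpace ℝ (Fin d) →ᵃ[ℝ] ℝ, ∀ x ∈ S, g x = φ x := by
  classical
  let b : AffineBasis S ℝ (EuclideanSpace ℝ (Fin d)) := ⟨_, hS, span_top S hc hS⟩
  refine ⟨∑ i : S, φ i • b.coord i, fun x hx => ?_⟩
  have hsum : ∀ (t : Finset S), (∑ i ∈ t, φ i • b.coord i) x = ∑ i ∈ t, φ i * b.coord i x := by
    intro t
    induction t using Finset.induction_on with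
    | empty => simp
    | insert a t ha ih => simp [Finset.sum_insert ha, ih]
  rw [hsum, Finset.sum_eq_single (⟨x, hx⟩ : S)]
  · have : b.coord ⟨x, hx⟩ x = 1 := b.coord_apply_eq ⟨x, hx⟩
    rw [this, mul_one]
  · intro i _ hi
    have : b.coord i x = 0 := b.coord_apply_ne (i := i) (j := ⟨x, hx⟩) hi
    rw [this, mul_zero]
  · intro h; exact absurd (Finset.mem_univ _) h

lemma disjoint_of_affine {d : ℕ} (g : EuclideanSpace ℝ (Fin d) →ᵃ[ℝ] ℝ)
    (e f : Finset (EuclideanSpace ℝ (Fin d))) (he : ∀ x ∈ e, 0 < g x) (hf : ∀ x ∈ f, g x < 0) :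
    Disjoint (convexHull ℝ (e : Set (EuclideanSpace ℝ (Fin d))))
      (convexHull ℝ (f : Set (EuclideanSpace ℝ (Fin d)))) := by
  have h1 : convexHull ℝ (e : Set (EuclideanSpace ℝ (Fin d))) ⊆ g ⁻¹' Set.Ioi 0 :=
    convexHull_min (fun x hx => he x hx) ((convex_Ioi (0 : ℝ)).affine_preimage g)
  have h2 : convexHull ℝ (f : Set (EuclideanSpace ℝ (Fin d))) ⊆ g ⁻¹' Set.Iio 0 :=
    convexHull_min (fun x hx => hf x hx) ((convex_Iio (0 : ℝ)).affine_preimage g)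
  rw [Set.disjoint_left]
  intro x hx1 hx2
  have a1 : 0 < g x := h1 hx1
  have a2 : g x < 0 := h2 hx2
  linarith

theorem two_disjoint (d : ℕ) (hd : 1 ≤ d) (V : Finset (EuclideanSpace ℝ (Fin d)))
    (hV : ∀ S ⊆ V, S.card ≤ d + 1 →
      AffineIndependent ℝ (fun x : S => (x : EuclideanSpace ℝ (Fin d))))
    (E : Finset (Finset (EuclideanSpace ℝ (Fin d))))
    (hE : ∀ e ∈ E, e ⊆ V ∧ e.card = d)
    (hbig : V.card.choose (d - 1) < E.card) :
    ∃ e ∈ E, ∃ f ∈ E, Disjoint (convexHull ℝ (e : Set (EuclideanSpace ℝ (Fin d))))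
      (convexHull ℝ (f : Set (EuclideanSpace ℝ (Fin d)))) := by
  classical
  obtain ⟨m, rfl⟩ : ∃ m, d = m + 1 := ⟨d - 1, by omega⟩
  simp only [Nat.add_sub_cancel] at hbig
  obtain ⟨s, hs, hsplit⟩ : ∃ s ∈ E, ∀ p : EuclideanSpace ℝ (Fin (m + 1)) → Prop,
      ∃ N ⊆ s, ∃ e ∈ E, ∃ f ∈ E,
      (∀ x ∈ e, (x ∈ s → x ∉ N) ∧ (x ∉ s → p x)) ∧
      (∀ x ∈ f, (x ∈ s → x ∈ N) ∧ (x ∉ s → ¬ p x)) :=
    exists_split m V E hE hbig
  obtain ⟨hsV, hsc⟩ := hE s hs
  have hins : ∀ w ∈ V, w ∉ s → (insert w s).card = m + 1 + 1 ∧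
      AffineIndependent ℝ (fun x : (insert w s : Finset _) =>
        (x : EuclideanSpace ℝ (Fin (m + 1)))) := by
    intro w hw hws
    have hc : (insert w s).card = m + 1 + 1 := by rw [Finset.card_insert_of_notMem hws, hsc]
    exact ⟨hc, hV _ (Finset.insert_subset hw hsV) hc.le⟩
  obtain ⟨w₀, hw₀V, hw₀s⟩ : ∃ w ∈ V, w ∉ s := by
    obtain ⟨N, -, e, he, f, hf, h1, h2⟩ := hsplit (fun _ => True)
    by_contra h
    push Not at h
    have hes : e = s := Finset.eq_of_subset_of_card_le (fun x hx => h x ((hE e he).1 hx))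
      (by rw [hsc, (hE e he).2])
    have hfs : f = s := Finset.eq_of_subset_of_card_le (fun x hx => h x ((hE f hf).1 hx))
      (by rw [hsc, (hE f hf).2])
    obtain ⟨x, hx⟩ : s.Nonempty := Finset.card_pos.1 (by omega)
    exact (h1 x (hes ▸ hx)).1 hx ((h2 x (hfs ▸ hx)).1 hx)
  obtain ⟨hc₀, hi₀⟩ := hins w₀ hw₀V hw₀s
  obtain ⟨h₀, hh₀⟩ := exists_affine _ hc₀ hi₀ (fun x => if x ∈ s then 0 else 1)
  have h₀s : ∀ x ∈ s, h₀ x = 0 := fun x hx => by
    rw [hh₀ x (Finset.mem_insert_of_mem hx), if_pos hx]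
  have h₀w : h₀ w₀ = 1 := by rw [hh₀ w₀ (Finset.mem_insert_self _ _), if_neg hw₀s]
  have h₀ne : ∀ w ∈ V, w ∉ s → h₀ w ≠ 0 := by
    intro w hw hws h0
    obtain ⟨hc, hi⟩ := hins w hw hws
    have : h₀ = 0 := by
      apply AffineMap.ext_on (span_top _ hc hi)
      rintro _ ⟨⟨x, hx⟩, rfl⟩
      rcases Finset.mem_insert.1 hx with rfl | hx'
      · simpa using h0
      · simpa using h₀s x hx'
    rw [this] at h₀w
    simp at h₀w
  obtain ⟨N, hN, e, he, f, hf, h1, h2⟩ := hsplit (fun x => 0 < h₀ x)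
  obtain ⟨g, hg⟩ := exists_affine _ hc₀ hi₀ (fun x => if x ∈ N then -1 else 1)
  let M : ℝ := ∑ w ∈ V, |g w| / |h₀ w| + 1
  have hM : ∀ w ∈ V, w ∉ s → |g w| < M * |h₀ w| := by
    intro w hw hws
    have hpos : 0 < |h₀ w| := abs_pos.2 (h₀ne w hw hws)
    have : |g w| / |h₀ w| ≤ ∑ w ∈ V, |g w| / |h₀ w| :=
      Finset.single_le_sum (f := fun w => |g w| / |h₀ w|) (fun i _ => by positivity) hw
    have h3 : |g w| / |h₀ w| < M := by simp only [M]; linarith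
    rwa [div_lt_iff₀ hpos] at h3
  refine ⟨e, he, f, hf, disjoint_of_affine (M • h₀ + g) e f ?_ ?_⟩
  · intro x hx
    have hval : (M • h₀ + g) x = M * h₀ x + g x := by simp
    rw [hval]
    by_cases hxs : x ∈ s
    · rw [h₀s x hxs, hg x (Finset.mem_insert_of_mem hxs), if_neg ((h1 x hx).1 hxs)]
      simp
    · have hp : 0 < h₀ x := (h1 x hx).2 hxs
      have := hM x ((hE e he).1 hx) hxs
      rw [abs_of_pos hp] at this
      linarith [neg_abs_le (g x)]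
  · intro x hx
    have hval : (M • h₀ + g) x = M * h₀ x + g x := by simp
    rw [hval]
    by_cases hxs : x ∈ s
    · rw [h₀s x hxs, hg x (Finset.mem_insert_of_mem hxs), if_pos ((h2 x hx).1 hxs)]
      simp
    · have hp : h₀ x < 0 :=
        lt_of_le_of_ne (not_lt.1 ((h2 x hx).2 hxs)) (h₀ne x ((hE f hf).1 hx) hxs)
      have := hM x ((hE f hf).1 hx) hxs
      rw [abs_of_neg hp] at this
      linarith [le_abs_self (g x)]

end Pool.Agent.P.MP_1f07eb_co
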