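import Mathlib
import Pool.Agent.P.MP_1f07eb_co.Geom

set_option autoImplicit false

namespace Pool.Agent.P.MP_1f07eb_co.Log

open Finset

section comb

variable {α : Type*} [DecidableEq α]

lemma exists_stress_sh (m : ℕ) (V : Finset α) (E : Finset (Finset α))
    (hbig : (E.biUnion fun e => e.powersetCard m).card < E.card) :
    ∃ Z : E → ℚ, Z ≠ 0 ∧ ∀ T ⊆ V, T.card = m → ∑ e : E, (if T ⊆ e.1 then Z e else 0) = 0 := by
  classical
  let K : Finset (Finset α) := E.biUnion fun e => e.powersetCard m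
  let L : (E → ℚ) →ₗ[ℚ] (K → ℚ) :=
    { toFun := fun Z k => ∑ e : E, (if k.1 ⊆ e.1 then Z e else 0)
      map_add' := by
        intro Z₁ Z₂
        funext k
        simp only [Pi.add_apply, ← Finset.sum_add_distrib]
        refine Finset.sum_congr rfl fun e _ => ?_
        split_ifs <;> simp
      map_smul' := by
        intro c Z
        funext k
        simp only [Pi.smul_apply, smul_eq_mul, RingHom.id_apply, Finset.mul_sum]
        refine Finset.sum_congr rfl fun e _ => ?_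
        split_ifs <;> simp }
  have hker : LinearMap.ker L ≠ ⊥ := by
    apply LinearMap.ker_ne_bot_of_finrank_lt
    simp only [Module.finrank_fintype_fun_eq_card, Fintype.card_coe, K]
    exact hbig
  obtain ⟨Z, hZ, hZ0⟩ := Submodule.exists_mem_ne_zero_of_ne_bot hker
  refine ⟨Z, hZ0, fun T _ hc => ?_⟩
  by_cases hK : T ∈ K
  · exact congrFun (LinearMap.mem_ker.1 hZ) ⟨T, hK⟩
  · refine Finset.sum_eq_zero fun e _ => if_neg fun h => hK ?_
    exact Finset.mem_biUnion.2 ⟨e.1, e.2, Finset.mem_powersetCard.2 ⟨h, hc⟩⟩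

lemma exists_cycle_sh (m : ℕ) (V : Finset α) (E : Finset (Finset α))
    (hE : ∀ e ∈ E, e ⊆ V ∧ e.card = m + 1)
    (hbig : (E.biUnion fun e => e.powersetCard m).card < E.card) :
    ∃ Z : E → ℚ, Z ≠ 0 ∧ ∀ w : α → ℚ,
      ∑ e : E, Z e * ∏ x ∈ e.1, (1 + - w x) = ∑ e : E, Z e * ∏ x ∈ e.1, (- w x) := by
  classical
  obtain ⟨Z, hZ0, hZ⟩ := exists_stress_sh m V E hbig
  refine ⟨Z, hZ0, fun w => ?_⟩
  have hd := stress_down m V E hE Z hZ
  let K : Finset (Finset α) := V.powerset.filter (fun T => T.card ≤ m)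
  have h1 : ∀ e : E, Z e * ∏ x ∈ e.1, (1 + - w x) = Z e * ∏ x ∈ e.1, (- w x) +
      ∑ T ∈ K, (∏ x ∈ T, (- w x)) * (if T ⊆ e.1 then Z e else 0) := by
    intro e
    obtain ⟨heV, hec⟩ := hE _ e.2
    rw [Finset.prod_one_add, ← Finset.add_sum_erase _ _ (Finset.mem_powerset_self e.1), mul_add]
    congr 1
    have : (e.1.powerset).erase e.1 = K.filter (fun T => T ⊆ e.1) := by
      ext T
      simp only [K, Finset.mem_erase, Finset.mem_powerset, Finset.mem_filter]
      constructor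
      · rintro ⟨h1, h2⟩
        refine ⟨⟨h2.trans heV, ?_⟩, h2⟩
        have := Finset.card_lt_card (Finset.ssubset_iff_subset_ne.2 ⟨h2, h1⟩)
        omega
      · rintro ⟨⟨_, h1⟩, h2⟩
        refine ⟨?_, h2⟩
        rintro rfl
        omega
    rw [this, Finset.sum_filter, Finset.mul_sum]
    refine Finset.sum_congr rfl fun T _ => ?_
    split_ifs <;> simp [mul_comm]
  simp only [h1, Finset.sum_add_distrib]
  rw [Finset.sum_comm (s := Finset.univ) (t := K)]
  have h2 : ∑ T ∈ K, ∑ e : E, (∏ x ∈ T, (- w x)) * (if T ⊆ e.1 then Z e else 0) = 0 := by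
    apply Finset.sum_eq_zero
    intro T hT
    simp only [K, Finset.mem_filter, Finset.mem_powerset] at hT
    rw [← Finset.mul_sum, hd (m - T.card) T hT.1 (by omega), mul_zero]
  rw [h2, add_zero]

lemma exists_split_sh (m : ℕ) (V : Finset α) (E : Finset (Finset α))
    (hE : ∀ e ∈ E, e ⊆ V ∧ e.card = m + 1)
    (hbig : (E.biUnion fun e => e.powersetCard m).card < E.card) :
    ∃ s ∈ E, ∀ p : α → Prop, ∃ N ⊆ s, ∃ e ∈ E, ∃ f ∈ E,
      (∀ x ∈ e, (x ∈ s → x ∉ N) ∧ (x ∉ s → p x)) ∧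
      (∀ x ∈ f, (x ∈ s → x ∈ N) ∧ (x ∉ s → ¬ p x)) := by
  classical
  obtain ⟨Z, hZ0, hZ⟩ := exists_cycle_sh m V E hE hbig
  obtain ⟨s, hs⟩ : ∃ s : E, Z s ≠ 0 := by
    by_contra h
    push Not at h
    exact hZ0 (funext h)
  refine ⟨s.1, s.2, fun p => ?_⟩
  let w : Finset α → α → ℚ := fun N x =>
    if x ∈ s.1 then (if x ∈ N then 0 else 1) else (if p x then 1 else 0)
  let c : E → ℚ := fun e => ∏ x ∈ e.1, (if x ∈ s.1 then -1 else (if p x then -1 else 0))
  have hprod : ∀ N ∈ s.1.powerset, ∀ e : E, (∏ i ∈ N, (-1 : ℚ)) * ∏ x ∈ e.1, (- w N x) =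
      c e * ∏ i ∈ N, (if i ∈ e.1 then 0 else -1) := by
    intro N hN e
    have hNs : N ⊆ s.1 := Finset.mem_powerset.1 hN
    by_cases hd : ∃ i ∈ N, i ∈ e.1
    · obtain ⟨i, hi, hie⟩ := hd
      rw [Finset.prod_eq_zero hie (by simp [w, hNs hi, hi]),
        Finset.prod_eq_zero (s := N) (f := fun i => if i ∈ e.1 then (0 : ℚ) else -1) hi
          (by simp [hie]), mul_zero, mul_zero]
    · push Not at hd
      rw [mul_comm]
      congr 1
      · refine Finset.prod_congr rfl fun x hx => ?_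
        have : x ∉ N := fun h => hd x h hx
        simp only [w, this, if_false]
        split_ifs <;> simp
      · refine Finset.prod_congr rfl fun x hx => ?_
        simp [hd x hx]
  have hsum : ∑ N ∈ s.1.powerset, (∏ i ∈ N, (-1 : ℚ)) * ∑ e : E, Z e * ∏ x ∈ e.1, (- w N x)
      = Z s * c s := by
    simp only [Finset.mul_sum]
    rw [Finset.sum_comm]
    have : ∀ e : E, ∑ N ∈ s.1.powerset, (∏ i ∈ N, (-1 : ℚ)) * (Z e * ∏ x ∈ e.1, (- w N x)) =
        Z e * c e * ∏ i ∈ s.1, (1 + (if i ∈ e.1 then (0 : ℚ) else -1)) := by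
      intro e
      rw [Finset.prod_one_add, Finset.mul_sum]
      refine Finset.sum_congr rfl fun N hN => ?_
      rw [mul_left_comm, hprod N hN e, mul_assoc]
    simp only [this]
    rw [Finset.sum_eq_single s]
    · have h2 : ∏ i ∈ s.1, (1 + (if i ∈ s.1 then (0 : ℚ) else -1)) = 1 :=
        Finset.prod_eq_one fun x hx => by simp [hx]
      rw [h2]; simp
    · intro e _ hes
      have : ∃ i ∈ s.1, i ∉ e.1 := by
        by_contra h
        push Not at h
        apply hes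
        apply Subtype.ext
        symm
        apply Finset.eq_of_subset_of_card_le h
        rw [(hE _ e.2).2, (hE _ s.2).2]
      obtain ⟨i, hi, hie⟩ := this
      rw [Finset.prod_eq_zero hi (by simp [hie]), mul_zero]
    · intro h; exact absurd (Finset.mem_univ _) h
  have hc : c s ≠ 0 := Finset.prod_ne_zero_iff.2 fun x hx => by simp [hx]
  obtain ⟨N, hN, hF⟩ : ∃ N ∈ s.1.powerset, ∑ e : E, Z e * ∏ x ∈ e.1, (- w N x) ≠ 0 := by
    by_contra h
    push Not at h
    apply mul_ne_zero hs hc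
    rw [← hsum]
    exact Finset.sum_eq_zero fun N hN => by rw [h N hN, mul_zero]
  have hF' := hF
  rw [← hZ (w N)] at hF'
  obtain ⟨e, -, he⟩ := Finset.exists_ne_zero_of_sum_ne_zero hF
  obtain ⟨f, -, hf⟩ := Finset.exists_ne_zero_of_sum_ne_zero hF'
  have he' := Finset.prod_ne_zero_iff.1 (right_ne_zero_of_mul he)
  have hf' := Finset.prod_ne_zero_iff.1 (right_ne_zero_of_mul hf)
  refine ⟨N, Finset.mem_powerset.1 hN, e.1, e.2, f.1, f.2, fun x hx => ⟨?_, ?_⟩,
    fun x hx => ⟨?_, ?_⟩⟩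
  · intro h1 h2
    exact he' x hx (by simp [w, h1, h2])
  · intro h1
    by_contra h2
    exact he' x hx (by simp [w, h1, h2])
  · intro h1
    by_contra h2
    exact hf' x hx (by simp [w, h1, h2])
  · intro h1 h2
    exact hf' x hx (by simp [w, h1, h2])

end comb

open Classical in
theorem two_disjoint_sh (d : ℕ) (hd : 1 ≤ d) (V : Finset (EuclideanSpace ℝ (Fin d)))
    (hV : ∀ S ⊆ V, S.card ≤ d + 1 →
      AffineIndependent ℝ (fun x : S => (x : EuclideanSpace ℝ (Fin d))))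
    (E : Finset (Finset (EuclideanSpace ℝ (Fin d))))
    (hE : ∀ e ∈ E, e ⊆ V ∧ e.card = d)
    (hbig : (E.biUnion fun e => e.powersetCard (d - 1)).card < E.card) :
    ∃ e ∈ E, ∃ f ∈ E, Disjoint (convexHull ℝ (e : Set (EuclideanSpace ℝ (Fin d))))
      (convexHull ℝ (f : Set (EuclideanSpace ℝ (Fin d)))) := by
  classical
  obtain ⟨m, rfl⟩ : ∃ m, d = m + 1 := ⟨d - 1, by omega⟩
  simp only [Nat.add_sub_cancel] at hbig
  obtain ⟨s, hs, hsplit⟩ : ∃ s ∈ E, ∀ p : EuclideanSpace ℝ (Fin (m + 1)) → Prop,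
      ∃ N ⊆ s, ∃ e ∈ E, ∃ f ∈ E,
      (∀ x ∈ e, (x ∈ s → x ∉ N) ∧ (x ∉ s → p x)) ∧
      (∀ x ∈ f, (x ∈ s → x ∈ N) ∧ (x ∉ s → ¬ p x)) :=
    exists_split_sh m V E hE hbig
  obtain ⟨hsV, hsc⟩ := hE s hs
  have hins : ∀ w ∈ V, w ∉ s → (insert w s).card = m + 1 + 1 ∧
      AffineIndependent ℝ (fun x : (insert w s : Finset _) =>
        (x : EuclideanSpace ℝ (Fin (m + 1)))) := by
    intro w hw hws
    have hc : (insert w s).card = m + 1 + 1 := by rw [Finset.card_insert_of_notMem hws, hsc]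
    exact ⟨hc, hV _ (Finset.insert_subset hw hsV) hc.le⟩
  obtain ⟨w₀, hw₀V, hw₀s⟩ : ∃ w ∈ V, w ∉ s := by
    obtain ⟨N, -, e, he, f, hf, h1, h2⟩ := hsplit (fun _ => True)
    by_contra h
    push Not at h
    have hes : e = s := Finset.eq_of_subset_of_card_le (fun x hx => h x ((hE e he).1 hx))
      (by rw [hsc, (hE e he).2])
    have hfs : f = s := Finset.eq_of_subset_of_card_le (fun x hx => h x ((hE f hf).1 hx))
      (by rw [hsc, (hE f hf).2])
    obtain ⟨x, hx⟩ : s.Nonempty := Finset.card_pos.1 (by omega)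
    exact (h1 x (hes ▸ hx)).1 hx ((h2 x (hfs ▸ hx)).1 hx)
  obtain ⟨hc₀, hi₀⟩ := hins w₀ hw₀V hw₀s
  obtain ⟨h₀, hh₀⟩ := exists_affine _ hc₀ hi₀ (fun x => if x ∈ s then 0 else 1)
  have h₀s : ∀ x ∈ s, h₀ x = 0 := fun x hx => by
    rw [hh₀ x (Finset.mem_insert_of_mem hx), if_pos hx]
  have h₀w : h₀ w₀ = 1 := by rw [hh₀ w₀ (Finset.mem_insert_self _ _), if_neg hw₀s]
  have h₀ne : ∀ w ∈ V, w ∉ s → h₀ w ≠ 0 := by
    intro w hw hws h0
    obtain ⟨hc, hi⟩ := hins w hw hws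
    have : h₀ = 0 := by
      apply AffineMap.ext_on (span_top _ hc hi)
      rintro _ ⟨⟨x, hx⟩, rfl⟩
      rcases Finset.mem_insert.1 hx with rfl | hx'
      · simpa using h0
      · simpa using h₀s x hx'
    rw [this] at h₀w
    simp at h₀w
  obtain ⟨N, hN, e, he, f, hf, h1, h2⟩ := hsplit (fun x => 0 < h₀ x)
  obtain ⟨g, hg⟩ := exists_affine _ hc₀ hi₀ (fun x => if x ∈ N then -1 else 1)
  let M : ℝ := ∑ w ∈ V, |g w| / |h₀ w| + 1
  have hM : ∀ w ∈ V, w ∉ s → |g w| < M * |h₀ w| := by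
    intro w hw hws
    have hpos : 0 < |h₀ w| := abs_pos.2 (h₀ne w hw hws)
    have : |g w| / |h₀ w| ≤ ∑ w ∈ V, |g w| / |h₀ w| :=
      Finset.single_le_sum (f := fun w => |g w| / |h₀ w|) (fun i _ => by positivity) hw
    have h3 : |g w| / |h₀ w| < M := by simp only [M]; linarith
    rwa [div_lt_iff₀ hpos] at h3
  refine ⟨e, he, f, hf, disjoint_of_affine (M • h₀ + g) e f ?_ ?_⟩
  · intro x hx
    have hval : (M • h₀ + g) x = M * h₀ x + g x := by simp
    rw [hval]
    by_cases hxs : x ∈ s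
    · rw [h₀s x hxs, hg x (Finset.mem_insert_of_mem hxs), if_neg ((h1 x hx).1 hxs)]
      simp
    · have hp : 0 < h₀ x := (h1 x hx).2 hxs
      have := hM x ((hE e he).1 hx) hxs
      rw [abs_of_pos hp] at this
      linarith [neg_abs_le (g x)]
  · intro x hx
    have hval : (M • h₀ + g) x = M * h₀ x + g x := by simp
    rw [hval]
    by_cases hxs : x ∈ s
    · rw [h₀s x hxs, hg x (Finset.mem_insert_of_mem hxs), if_pos ((h2 x hx).1 hxs)]
      simp
    · have hp : h₀ x < 0 :=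
        lt_of_le_of_ne (not_lt.1 ((h2 x hx).2 hxs)) (h₀ne x ((hE f hf).1 hx) hxs)
      have := hM x ((hE f hf).1 hx) hxs
      rw [abs_of_neg hp] at this
      linarith [le_abs_self (g x)]

end Pool.Agent.P.MP_1f07eb_co.Log
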