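import Mathlib

set_option autoImplicit false

namespace Pool.Agent.P.MP_1f07eb_co.Log

variable {ι : Type*}

/-- The algebraic crossing parity of the step p q with the step r s. -/
def cr (β : ι → ι → ι → ZMod 2) (lt : ι → ι → ZMod 2) (p q r s : ι) : ZMod 2 :=
  β p r s + β q r s + β r p q + β s p q + lt p r + lt q r + lt p s + lt q s

lemma tele (f : ℕ → ZMod 2) (n : ℕ) :
    ∑ m ∈ Finset.range n, (f m + f (m + 1)) = f 0 + f n := by
  have h2 : (2 : ZMod 2) = 0 := by decide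
  induction n with
  | zero => simp only [Finset.range_zero, Finset.sum_empty]; linear_combination (-(f 0)) * h2
  | succ n ih => rw [Finset.sum_range_succ, ih]; linear_combination (f n) * h2

lemma cr_sum (β : ι → ι → ι → ZMod 2) (lt : ι → ι → ZMod 2) (n : ℕ) (w v : ℕ → ι) :
    ∑ m ∈ Finset.range n, ∑ m' ∈ Finset.range n, cr β lt (w m) (w (m + 1)) (v m') (v (m' + 1)) =
      (∑ m' ∈ Finset.range n, β (w 0) (v m') (v (m' + 1))) +
      (∑ m' ∈ Finset.range n, β (w n) (v m') (v (m' + 1))) +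
      (∑ m ∈ Finset.range n, β (v 0) (w m) (w (m + 1))) +
      (∑ m ∈ Finset.range n, β (v n) (w m) (w (m + 1))) +
      lt (w 0) (v 0) + lt (w n) (v 0) + lt (w 0) (v n) + lt (w n) (v n) := by
  have e1 : ∑ m ∈ Finset.range n, ∑ m' ∈ Finset.range n,
      (β (w m) (v m') (v (m' + 1)) + β (w (m + 1)) (v m') (v (m' + 1))) =
      (∑ m' ∈ Finset.range n, β (w 0) (v m') (v (m' + 1))) +
      (∑ m' ∈ Finset.range n, β (w n) (v m') (v (m' + 1))) := by
    rw [Finset.sum_comm, ← Finset.sum_add_distrib]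
    exact Finset.sum_congr rfl fun m' _ => tele (fun m => β (w m) (v m') (v (m' + 1))) n
  have e2 : ∑ m ∈ Finset.range n, ∑ m' ∈ Finset.range n,
      (β (v m') (w m) (w (m + 1)) + β (v (m' + 1)) (w m) (w (m + 1))) =
      (∑ m ∈ Finset.range n, β (v 0) (w m) (w (m + 1))) +
      (∑ m ∈ Finset.range n, β (v n) (w m) (w (m + 1))) := by
    rw [← Finset.sum_add_distrib]
    exact Finset.sum_congr rfl fun m _ => tele (fun m' => β (v m') (w m) (w (m + 1))) n
  have e3 : ∑ m ∈ Finset.range n, ∑ m' ∈ Finset.range n,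
      ((lt (w m) (v m') + lt (w (m + 1)) (v m')) +
        (lt (w m) (v (m' + 1)) + lt (w (m + 1)) (v (m' + 1)))) =
      lt (w 0) (v 0) + lt (w n) (v 0) + lt (w 0) (v n) + lt (w n) (v n) := by
    have : ∀ m ∈ Finset.range n, ∑ m' ∈ Finset.range n,
        ((lt (w m) (v m') + lt (w (m + 1)) (v m')) +
          (lt (w m) (v (m' + 1)) + lt (w (m + 1)) (v (m' + 1)))) =
        (lt (w m) (v 0) + lt (w m) (v n)) + (lt (w (m + 1)) (v 0) + lt (w (m + 1)) (v n)) := by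
      intro m _
      rw [tele (fun m' => lt (w m) (v m') + lt (w (m + 1)) (v m')) n]
      ring
    rw [Finset.sum_congr rfl this, tele (fun m => lt (w m) (v 0) + lt (w m) (v n)) n]
    ring
  have e4 : ∑ m ∈ Finset.range n, ∑ m' ∈ Finset.range n,
      cr β lt (w m) (w (m + 1)) (v m') (v (m' + 1)) =
      (∑ m ∈ Finset.range n, ∑ m' ∈ Finset.range n,
        (β (w m) (v m') (v (m' + 1)) + β (w (m + 1)) (v m') (v (m' + 1)))) +
      (∑ m ∈ Finset.range n, ∑ m' ∈ Finset.range n,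
        (β (v m') (w m) (w (m + 1)) + β (v (m' + 1)) (w m) (w (m + 1)))) +
      (∑ m ∈ Finset.range n, ∑ m' ∈ Finset.range n,
        ((lt (w m) (v m') + lt (w (m + 1)) (v m')) +
          (lt (w m) (v (m' + 1)) + lt (w (m + 1)) (v (m' + 1))))) := by
    simp only [← Finset.sum_add_distrib]
    refine Finset.sum_congr rfl fun m _ => Finset.sum_congr rfl fun m' _ => ?_
    unfold cr
    ring
  rw [e4, e1, e2, e3]
  ring

lemma k33_alg (B : ι → Fin 3 → Fin 3 → ZMod 2) (lt : ι → ι → ZMod 2) (s t : Fin 3 → ι)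
    (h : ∀ i j k l : Fin 3, i < k → j ≠ l →
      B (s i) k l + B (t j) k l + B (s k) i j + B (t l) i j +
        lt (s i) (s k) + lt (t j) (s k) + lt (s i) (t l) + lt (t j) (t l) = 0)
    (g : ∀ j l : Fin 3, j ≠ l → lt (t j) (t l) + lt (t l) (t j) = 1) : False := by
  have h2 : (2 : ZMod 2) = 0 := by decide
  have : (1 : ZMod 2) = 0 := by
    linear_combination 3 * (g 0 1 (by decide) + g 0 2 (by decide) + g 1 2 (by decide)) -
      (h 0 0 1 1 (by decide) (by decide) + h 0 0 1 2 (by decide) (by decide) + 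
      h 0 1 1 0 (by decide) (by decide) + h 0 1 1 2 (by decide) (by decide) + 
      h 0 2 1 0 (by decide) (by decide) + h 0 2 1 1 (by decide) (by decide) + 
      h 0 0 2 1 (by decide) (by decide) + h 0 0 2 2 (by decide) (by decide) + 
      h 0 1 2 0 (by decide) (by decide) + h 0 1 2 2 (by decide) (by decide) + 
      h 0 2 2 0 (by decide) (by decide) + h 0 2 2 1 (by decide) (by decide) + 
      h 1 0 2 1 (by decide) (by decide) + h 1 0 2 2 (by decide) (by decide) + 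
      h 1 1 2 0 (by decide) (by decide) + h 1 1 2 2 (by decide) (by decide) + 
      h 1 2 2 0 (by decide) (by decide) + h 1 2 2 1 (by decide) (by decide)) +
      (5 + (1 * B (s 0) 1 1 + 1 * B (t 0) 1 1 + 1 * B (s 1) 0 0 + 1 * B (t 1) 0 0 + 
      3 * lt (s 0) (s 1) + 1 * lt (t 0) (s 1) + 2 * lt (s 0) (t 1) + 1 * B (s 0) 1 2 + 
      1 * B (t 0) 1 2 + 1 * B (t 2) 0 0 + 2 * lt (s 0) (t 2) + 1 * B (s 0) 1 0 + 
      1 * B (t 1) 1 0 + 1 * B (s 1) 0 1 + 1 * B (t 0) 0 1 + 1 * lt (t 1) (s 1) + 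
      2 * lt (s 0) (t 0) + 1 * B (t 1) 1 2 + 1 * B (t 2) 0 1 + 1 * B (t 2) 1 0 + 
      1 * B (s 1) 0 2 + 1 * B (t 0) 0 2 + 1 * lt (t 2) (s 1) + 1 * B (t 2) 1 1 + 
      1 * B (t 1) 0 2 + 1 * B (s 0) 2 1 + 1 * B (t 0) 2 1 + 1 * B (s 2) 0 0 + 
      3 * lt (s 0) (s 2) + 2 * lt (t 0) (s 2) + 1 * B (s 0) 2 2 + 1 * B (t 0) 2 2 + 
      1 * B (s 0) 2 0 + 1 * B (t 1) 2 0 + 1 * B (s 2) 0 1 + 2 * lt (t 1) (s 2) + 
      1 * B (t 1) 2 2 + 1 * B (t 2) 2 0 + 1 * B (s 2) 0 2 + 2 * lt (t 2) (s 2) + 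
      1 * B (t 2) 2 1 + 1 * B (s 1) 2 1 + 1 * B (s 2) 1 0 + 3 * lt (s 1) (s 2) + 
      1 * lt (s 1) (t 1) + 1 * B (s 1) 2 2 + 1 * lt (s 1) (t 2) + 1 * B (s 1) 2 0 + 
      1 * B (s 2) 1 1 + 1 * lt (s 1) (t 0) + 1 * B (s 2) 1 2)) * h2
  exact absurd this (by decide)

/-- Nine walks joining three roots to three targets: two independent ones cross. -/
lemma k33 (β : ι → ι → ι → ZMod 2) (lt : ι → ι → ZMod 2) (n : ℕ) (s t : Fin 3 → ι)
    (W : Fin 3 → Fin 3 → ℕ → ι) (h0 : ∀ i j, W i j 0 = s i) (hn : ∀ i j, W i j n = t j)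
    (hc : ∀ i j k l : Fin 3, i < k → j ≠ l → ∀ m < n, ∀ m' < n,
      cr β lt (W i j m) (W i j (m + 1)) (W k l m') (W k l (m' + 1)) = 0)
    (g : ∀ j l : Fin 3, j ≠ l → lt (t j) (t l) + lt (t l) (t j) = 1) : False := by
  refine k33_alg (fun z k l => ∑ m' ∈ Finset.range n, β z (W k l m') (W k l (m' + 1))) lt s t
    (fun i j k l hik hjl => ?_) g
  have := cr_sum β lt n (W i j) (W k l)
  rw [h0, h0, hn, hn] at this
  rw [← this]
  exact Finset.sum_eq_zero fun m hm => Finset.sum_eq_zero fun m' hm' =>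
    hc i j k l hik hjl m (Finset.mem_range.1 hm) m' (Finset.mem_range.1 hm')

end Pool.Agent.P.MP_1f07eb_co.Log
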