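import Mathlib
import Pool.Agent.P.MP_1f07eb_co.LogParity

set_option autoImplicit false

namespace Pool.Agent.P.MP_1f07eb_co.Log

open Classical

variable {ι : Type*}

/-- A walk with m steps inside U from y to z. -/
def Rch (Adj : ι → ι → Prop) (U : Finset ι) (m : ℕ) (y z : ι) : Prop :=
  ∃ w : ℕ → ι, w 0 = y ∧ w m = z ∧ (∀ i ≤ m, w i ∈ U) ∧ ∀ i < m, Adj (w i) (w (i + 1))

/-- The points reached from Y by walks with m steps inside U. -/
noncomputable def ball (Adj : ι → ι → Prop) (U : Finset ι) (m : ℕ) (Y : Finset ι) : Finset ι :=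
  U.filter fun z => ∃ y ∈ Y, Rch Adj U m y z

/-- The outer boundary of S inside E. -/
noncomputable def bdry (Adj : ι → ι → Prop) (E S : Finset ι) : Finset ι :=
  (E \ S).filter fun z => ∃ y ∈ S, Adj y z

lemma Rch.step {Adj : ι → ι → Prop} {U : Finset ι} {m : ℕ} {y z z' : ι}
    (h : Rch Adj U m y z) (hz : z' ∈ U) (ha : Adj z z') : Rch Adj U (m + 1) y z' := by
  obtain ⟨w, h0, hm, hU, hA⟩ := h
  refine ⟨fun i => if i ≤ m then w i else z', by simpa using h0, by simp, fun i _ => ?_,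
    fun i hi => ?_⟩
  · by_cases h : i ≤ m
    · simpa [h] using hU i h
    · simpa [h] using hz
  · by_cases h : i < m
    · have h1 : i ≤ m := h.le
      have h2 : i + 1 ≤ m := h
      simpa [h1, h2] using hA i h
    · have h1 : i = m := by omega
      subst h1
      simpa [hm] using ha

lemma ball_grow {Adj : ι → ι → Prop} {E X : Finset ι} (hr : ∀ z ∈ E, Adj z z) (m : ℕ)
    (Y : Finset ι) :
    (ball Adj (E \ X) m Y).card + (bdry Adj E (ball Adj (E \ X) m Y)).card ≤
      (ball Adj (E \ X) (m + 1) Y).card + X.card := by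
  set B := ball Adj (E \ X) m Y with hB
  have hd : Disjoint B (bdry Adj E B) := by
    rw [Finset.disjoint_left]
    intro z hz hz'
    simp only [bdry, Finset.mem_filter, Finset.mem_sdiff] at hz'
    exact hz'.1.2 hz
  rw [← Finset.card_union_of_disjoint hd]
  refine le_trans (Finset.card_le_card ?_) (Finset.card_union_le _ _)
  intro z hz
  rw [Finset.mem_union] at hz ⊢
  by_cases hX : z ∈ X
  · exact Or.inr hX
  left
  rcases hz with hz | hz
  · simp only [hB, ball, Finset.mem_filter] at hz ⊢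
    obtain ⟨hU, y, hy, hR⟩ := hz
    exact ⟨hU, y, hy, hR.step hU (hr z (Finset.mem_sdiff.1 hU).1)⟩
  · simp only [bdry, Finset.mem_filter, Finset.mem_sdiff] at hz
    obtain ⟨⟨hE, _⟩, x, hx, ha⟩ := hz
    simp only [hB, ball, Finset.mem_filter] at hx ⊢
    obtain ⟨_, y, hy, hR⟩ := hx
    have hU : z ∈ E \ X := Finset.mem_sdiff.2 ⟨hE, hX⟩
    exact ⟨hU, y, hy, hR.step hU ha⟩

lemma ball_sub {Adj : ι → ι → Prop} {E X : Finset ι} (m : ℕ) (Y : Finset ι) :
    ball Adj (E \ X) m Y ⊆ E := fun _ hz =>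
  (Finset.mem_sdiff.1 (Finset.mem_filter.1 hz).1).1

lemma ball_mono {Adj : ι → ι → Prop} {E X : Finset ι} (hr : ∀ z ∈ E, Adj z z) (m : ℕ)
    (Y : Finset ι) : ball Adj (E \ X) m Y ⊆ ball Adj (E \ X) (m + 1) Y := by
  intro z hz
  simp only [ball, Finset.mem_filter] at hz ⊢
  obtain ⟨hU, y, hy, hR⟩ := hz
  exact ⟨hU, y, hy, hR.step hU (hr z (Finset.mem_sdiff.1 hU).1)⟩

lemma ball_big {Adj : ι → ι → Prop} {E X : Finset ι} (hr : ∀ z ∈ E, Adj z z) (a : ℕ)
    (ha : 1 ≤ a)
    (H : ∀ S ⊆ E, E.card ≤ 4 * S.card → 4 * S.card ≤ 3 * E.card → E.card < a * (bdry Adj E S).card)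
    (hX : 2 * a * X.card ≤ E.card) (m : ℕ) (Y : Finset ι)
    (hm : E.card ≤ 4 * (ball Adj (E \ X) m Y).card) :
    3 * E.card < 4 * (ball Adj (E \ X) (m + a) Y).card := by
  have key : ∀ i : ℕ, 3 * E.card < 4 * (ball Adj (E \ X) (m + i) Y).card ∨
      (E.card ≤ 4 * (ball Adj (E \ X) (m + i) Y).card ∧
        a * E.card + 2 * i * E.card + i ≤ 4 * a * (ball Adj (E \ X) (m + i) Y).card) := by
    intro i
    induction i with
    | zero =>
      right
      refine ⟨by simpa using hm, ?_⟩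
      have := Nat.mul_le_mul_left a hm
      simp only [Nat.add_zero]
      nlinarith
    | succ i ih =>
      have hmono := Finset.card_le_card (ball_mono (X := X) hr (m + i) Y)
      have hg := ball_grow (X := X) hr (m + i) Y
      rw [← Nat.add_assoc]
      rcases ih with ih | ⟨ih1, ih2⟩
      · left; omega
      · by_cases hb : 3 * E.card < 4 * (ball Adj (E \ X) (m + i) Y).card
        · left; omega
        · right
          have h1 := H _ (ball_sub (X := X) (m + i) Y) ih1 (not_lt.1 hb)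
          refine ⟨by omega, ?_⟩
          have h2 := Nat.mul_le_mul_left (4 * a) hg
          nlinarith
  rcases key a with h | ⟨_, h⟩
  · exact h
  · by_contra hb
    have := Nat.mul_le_mul_left a (not_lt.1 hb)
    nlinarith

lemma ball_union {Adj : ι → ι → Prop} {U : Finset ι} (m : ℕ) (Y Y₁ : Finset ι) :
    (ball Adj U m Y).card ≤ (ball Adj U m Y₁).card + (ball Adj U m (Y \ Y₁)).card := by
  refine le_trans (Finset.card_le_card ?_) (Finset.card_union_le _ _)
  intro z hz
  simp only [ball, Finset.mem_filter, Finset.mem_union] at hz ⊢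
  obtain ⟨hU, y, hy, hR⟩ := hz
  by_cases h : y ∈ Y₁
  · exact Or.inl ⟨hU, y, h, hR⟩
  · exact Or.inr ⟨hU, y, Finset.mem_sdiff.2 ⟨hy, h⟩, hR⟩

lemma ball_halve {Adj : ι → ι → Prop} {E X : Finset ι} (hr : ∀ z ∈ E, Adj z z) (a : ℕ)
    (ha : 1 ≤ a)
    (H : ∀ S ⊆ E, E.card ≤ 4 * S.card → 4 * S.card ≤ 3 * E.card → E.card < a * (bdry Adj E S).card)
    (hX : 2 * a * X.card ≤ E.card) (j : ℕ) : ∀ (m : ℕ) (Y : Finset ι), Y.card ≤ 2 ^ j →
      3 * E.card < 4 * (ball Adj (E \ X) m Y).card →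
      ∃ y, 3 * E.card < 4 * (ball Adj (E \ X) (m + j * a) {y}).card := by
  induction j with
  | zero =>
    intro m Y hY hb
    rcases Y.eq_empty_or_nonempty with rfl | hne
    · simp [ball] at hb
    · have h1 : Y.card = 1 := le_antisymm (by simpa using hY) hne.card_pos
      obtain ⟨y, rfl⟩ := Finset.card_eq_one.1 h1
      exact ⟨y, by simpa using hb⟩
  | succ j ih =>
    intro m Y hY hb
    obtain ⟨Y₁, hsub, hc⟩ := Finset.exists_subset_card_eq (s := Y) (n := min Y.card (2 ^ j))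
      (min_le_left _ _)
    have hc1 : Y₁.card ≤ 2 ^ j := by rw [hc]; exact min_le_right _ _
    have hc2 : (Y \ Y₁).card ≤ 2 ^ j := by
      rw [Finset.card_sdiff_of_subset hsub, hc]
      rw [pow_succ] at hY
      omega
    have hu := ball_union (Adj := Adj) (U := E \ X) m Y Y₁
    have e : m + (j + 1) * a = m + a + j * a := by ring
    rw [e]
    by_cases h1 : E.card ≤ 4 * (ball Adj (E \ X) m Y₁).card
    · exact ih _ _ hc1 (ball_big hr a ha H hX m Y₁ h1)
    · exact ih _ _ hc2 (ball_big hr a ha H hX m (Y \ Y₁) (by omega))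

/-- A breadth first tree avoiding X that reaches more than three quarters of E. -/
lemma exists_tree {Adj : ι → ι → Prop} {E X : Finset ι} (hr : ∀ z ∈ E, Adj z z) (a L : ℕ)
    (ha : 1 ≤ a) (hL : E.card ≤ 2 ^ L)
    (H : ∀ S ⊆ E, E.card ≤ 4 * S.card → 4 * S.card ≤ 3 * E.card → E.card < a * (bdry Adj E S).card)
    (hX : 2 * a * X.card ≤ E.card) :
    ∃ (s : ι) (Z : Finset ι) (w : ι → ℕ → ι), Z ⊆ E ∧ 3 * E.card < 4 * Z.card ∧
      ∀ z ∈ Z, w z 0 = s ∧ w z (a + L * a) = z ∧ (∀ i ≤ a + L * a, w z i ∈ E \ X) ∧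
        ∀ i < a + L * a, Adj (w z i) (w z (i + 1)) := by
  have h0 : ball Adj (E \ X) 0 (E \ X) = E \ X := by
    unfold ball
    refine Finset.filter_true_of_mem fun z hz => ⟨z, hz, fun _ => z, rfl, rfl, fun _ _ => hz, ?_⟩
    intro i hi
    omega
  have h1 : E.card ≤ 4 * (ball Adj (E \ X) 0 (E \ X)).card := by
    rw [h0]
    have := Finset.le_card_sdiff X E
    have h3 : 2 * X.card ≤ E.card := by nlinarith
    omega
  have h2 := ball_big hr a ha H hX 0 _ h1
  obtain ⟨s, hs⟩ := ball_halve hr a ha H hX L _ _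
    (le_trans (Finset.card_le_card Finset.sdiff_subset) hL) h2
  rw [Nat.zero_add] at hs
  have h4 : ∀ z : ι, ∃ w : ℕ → ι, z ∈ ball Adj (E \ X) (a + L * a) {s} →
      w 0 = s ∧ w (a + L * a) = z ∧ (∀ i ≤ a + L * a, w i ∈ E \ X) ∧
        ∀ i < a + L * a, Adj (w i) (w (i + 1)) := by
    intro z
    by_cases hz : z ∈ ball Adj (E \ X) (a + L * a) {s}
    · have hz' := hz
      simp only [ball, Finset.mem_filter, Finset.mem_singleton] at hz'
      obtain ⟨_, y, rfl, w, hw⟩ := hz'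
      exact ⟨w, fun _ => hw⟩
    · exact ⟨fun _ => z, fun h => absurd h hz⟩
  choose w hw using h4
  exact ⟨s, _, w, ball_sub _ _, hs, hw⟩

end Pool.Agent.P.MP_1f07eb_co.Log
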