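import Mathlib
import Pool.Agent.P.MP_1f07eb_co.LogTree

set_option autoImplicit false

namespace Pool.Agent.P.MP_1f07eb_co.Log

open Classical

variable {ι : Type*}

/-- The number of walks of a tree that contain a point in bad position with v. -/
noncomputable def load (Bad : ι → ι → Prop) (t : ℕ) (Z : Finset ι) (w : ι → ℕ → ι) (v : ι) : ℕ :=
  (Z.filter fun z => ∃ m ≤ t, Bad (w z m) v).card

/-- The points of E with large load. -/
noncomputable def heavy (Bad : ι → ι → Prop) (t q : ℕ) (E Z : Finset ι) (w : ι → ℕ → ι) :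
    Finset ι :=
  E.filter fun v => E.card < q * load Bad t Z w v

lemma heavy_card {Bad : ι → ι → Prop} {t q b : ℕ} {E Z : Finset ι} {w : ι → ℕ → ι}
    (hZ : Z ⊆ E) (hw : ∀ z ∈ Z, ∀ m ≤ t, w z m ∈ E)
    (hb : ∀ v ∈ E, (E.filter (Bad v)).card ≤ b) (hE : 0 < E.card) :
    (heavy Bad t q E Z w).card ≤ q * (t + 1) * b := by
  have h1 : ∑ v ∈ E, load Bad t Z w v ≤ E.card * ((t + 1) * b) := by
    have e : ∑ v ∈ E, load Bad t Z w v =
        ∑ z ∈ Z, (E.filter fun v => ∃ m ≤ t, Bad (w z m) v).card := by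
      unfold load
      simp only [Finset.card_filter]
      exact Finset.sum_comm
    rw [e]
    refine le_trans (Finset.sum_le_card_nsmul _ _ ((t + 1) * b) fun z hz => ?_) ?_
    · have hs : (E.filter fun v => ∃ m ≤ t, Bad (w z m) v) ⊆
          (Finset.range (t + 1)).biUnion fun m => E.filter (Bad (w z m)) := by
        intro v hv
        simp only [Finset.mem_filter, Finset.mem_biUnion, Finset.mem_range] at hv ⊢
        obtain ⟨hv, m, hm, hB⟩ := hv
        exact ⟨m, by omega, hv, hB⟩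
      refine le_trans (Finset.card_le_card hs) ?_
      have := Finset.card_biUnion_le_card_mul (Finset.range (t + 1))
        (fun m => E.filter (Bad (w z m))) b
        (fun m hm => hb _ (hw z hz m (by have := Finset.mem_range.1 hm; omega)))
      simpa using this
    · rw [smul_eq_mul]
      exact Nat.mul_le_mul_right _ (Finset.card_le_card hZ)
  have h2 : (heavy Bad t q E Z w).card * E.card ≤ q * ∑ v ∈ E, load Bad t Z w v := by
    rw [Finset.mul_sum]
    refine le_trans ?_ (Finset.sum_le_sum_of_subset (f := fun v => q * load Bad t Z w v)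
      (Finset.filter_subset (fun v => E.card < q * load Bad t Z w v) E))
    have := Finset.card_nsmul_le_sum (heavy Bad t q E Z w) (fun v => q * load Bad t Z w v) E.card
      (fun v hv => (Finset.mem_filter.1 hv).2.le)
    simpa [heavy] using this
  have h3 : (heavy Bad t q E Z w).card * E.card ≤ q * (t + 1) * b * E.card := by
    calc _ ≤ q * ∑ v ∈ E, load Bad t Z w v := h2
      _ ≤ q * (E.card * ((t + 1) * b)) := Nat.mul_le_mul_left _ h1
      _ = _ := by ring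
  exact Nat.le_of_mul_le_mul_right h3 hE

lemma pair_count {Bad : ι → ι → Prop} {t q : ℕ} {E Z Z' X : Finset ι} {w : ι → ℕ → ι}
    (hX : heavy Bad t q E Z w ⊆ X) (hZ : Z' ⊆ Z) (v : ℕ → ι) (hv : ∀ m ≤ t, v m ∈ E \ X) :
    q * (Z'.filter fun z => ∃ m ≤ t, ∃ m' ≤ t, Bad (w z m) (v m')).card ≤ (t + 1) * E.card := by
  have hs : (Z'.filter fun z => ∃ m ≤ t, ∃ m' ≤ t, Bad (w z m) (v m')) ⊆
      (Finset.range (t + 1)).biUnion fun m' => Z.filter fun z => ∃ m ≤ t, Bad (w z m) (v m') := by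
    intro z hz
    simp only [Finset.mem_filter, Finset.mem_biUnion, Finset.mem_range] at hz ⊢
    obtain ⟨hz, m, hm, m', hm', hB⟩ := hz
    exact ⟨m', by omega, hZ hz, m, hm, hB⟩
  have h1 := le_trans (Finset.card_le_card hs) Finset.card_biUnion_le
  refine le_trans (Nat.mul_le_mul_left q h1) ?_
  rw [Finset.mul_sum]
  refine le_trans (Finset.sum_le_card_nsmul _ _ E.card fun m' hm' => ?_) (by simp)
  have hm : m' ≤ t := by have := Finset.mem_range.1 hm'; omega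
  have h2 := Finset.mem_sdiff.1 (hv m' hm)
  by_contra hc
  exact h2.2 (hX (Finset.mem_filter.2 ⟨h2.1, not_le.1 hc⟩))

lemma exists_triple (Z : Finset ι) (P : ι → ι → Prop) (δ : ℕ)
    (hP : ∀ y ∈ Z, (Z.filter fun x => P x y).card ≤ δ) (hδ : 6 * δ < Z.card) :
    ∃ x ∈ Z, ∃ y ∈ Z, ∃ z ∈ Z, ¬ P x y ∧ ¬ P y x ∧ ¬ P x z ∧ ¬ P z x ∧ ¬ P y z ∧ ¬ P z y := by
  by_contra hc
  let f : ι → ι → ℕ := fun x y => if P x y then 1 else 0
  have hS : ∑ x ∈ Z, ∑ y ∈ Z, f x y ≤ Z.card * δ := by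
    rw [Finset.sum_comm]
    refine le_trans (Finset.sum_le_card_nsmul _ _ δ fun y hy => ?_) (by simp)
    have := hP y hy
    rwa [Finset.card_filter] at this
  have hS' : ∑ x ∈ Z, ∑ y ∈ Z, f y x ≤ Z.card * δ := by rw [Finset.sum_comm]; exact hS
  have h1 : ∀ x ∈ Z, ∀ y ∈ Z, ∀ z ∈ Z,
      1 ≤ f x y + f y x + f x z + f z x + f y z + f z y := by
    intro x hx y hy z hz
    by_contra h
    apply hc
    refine ⟨x, hx, y, hy, z, hz, ?_, ?_, ?_, ?_, ?_, ?_⟩ <;>
    · intro hp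
      apply h
      simp only [f, hp, if_true]
      omega
  have h2 : ∑ x ∈ Z, ∑ y ∈ Z, ∑ z ∈ Z, 1 ≤
      ∑ x ∈ Z, ∑ y ∈ Z, ∑ z ∈ Z, (f x y + f y x + f x z + f z x + f y z + f z y) :=
    Finset.sum_le_sum fun x hx => Finset.sum_le_sum fun y hy => Finset.sum_le_sum fun z hz =>
      h1 x hx y hy z hz
  simp only [Finset.sum_add_distrib, Finset.sum_const, smul_eq_mul, mul_one,
    ← Finset.mul_sum] at h2
  have h3 : Z.card * (Z.card * Z.card) ≤ Z.card * (Z.card * (6 * δ)) := by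
    have a1 := Nat.mul_le_mul_left Z.card hS
    have a2 := Nat.mul_le_mul_left Z.card hS'
    nlinarith
  have h4 : 0 < Z.card := by omega
  have h5 := Nat.le_of_mul_le_mul_left (Nat.le_of_mul_le_mul_left h3 h4) h4
  omega

/-- Separator lemma: few bad pairs force a small balanced vertex separator. -/
lemma exists_sep (Adj Bad : ι → ι → Prop) (β : ι → ι → ι → ZMod 2) (lt : ι → ι → ZMod 2)
    (E : Finset ι) (hr : ∀ z ∈ E, Adj z z)
    (hlt : ∀ p ∈ E, ∀ r ∈ E, ¬ Bad p r → lt p r + lt r p = 1)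
    (hcr : ∀ p ∈ E, ∀ q ∈ E, ∀ r ∈ E, ∀ s ∈ E, Adj p q → Adj r s → ¬ Bad p r → ¬ Bad p s →
      ¬ Bad q r → ¬ Bad q s → cr β lt p q r s = 0)
    (a L b : ℕ) (ha : 1 ≤ a) (hL : E.card ≤ 2 ^ L) (hE : 0 < E.card)
    (hb : ∀ v ∈ E, (E.filter (Bad v)).card ≤ b)
    (hN : 288 * a * (a + L * a + 1) ^ 2 * b ≤ E.card) :
    ∃ S ⊆ E, E.card ≤ 4 * S.card ∧ 4 * S.card ≤ 3 * E.card ∧
      a * (bdry Adj E S).card ≤ E.card := by
  by_contra hc
  have H : ∀ S ⊆ E, E.card ≤ 4 * S.card → 4 * S.card ≤ 3 * E.card →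
      E.card < a * (bdry Adj E S).card := by
    intro S hS h1 h2
    by_contra h3
    exact hc ⟨S, hS, h1, h2, not_lt.1 h3⟩
  set t := a + L * a with ht
  set q := 72 * (t + 1) with hq
  obtain ⟨s0, Z0, w0, hZ0, hc0, hw0⟩ := exists_tree (X := ∅) hr a L ha hL H (by simp)
  rw [← ht] at hw0
  have hh0 : (heavy Bad t q E Z0 w0).card ≤ q * (t + 1) * b :=
    heavy_card hZ0 (fun z hz m hm => (Finset.mem_sdiff.1 ((hw0 z hz).2.2.1 m hm)).1) hb hE
  have hq2 : 2 * a * (2 * (q * (t + 1) * b)) ≤ E.card := by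
    calc _ = 288 * a * (t + 1) ^ 2 * b := by rw [hq]; ring
      _ ≤ _ := hN
  obtain ⟨s1, Z1, w1, hZ1, hc1, hw1⟩ := exists_tree (X := heavy Bad t q E Z0 w0) hr a L ha hL H
    (le_trans (Nat.mul_le_mul_left _ (by omega)) hq2)
  rw [← ht] at hw1
  have hh1 : (heavy Bad t q E Z1 w1).card ≤ q * (t + 1) * b :=
    heavy_card hZ1 (fun z hz m hm => (Finset.mem_sdiff.1 ((hw1 z hz).2.2.1 m hm)).1) hb hE
  obtain ⟨s2, Z2, w2, hZ2, hc2, hw2⟩ := exists_tree
    (X := heavy Bad t q E Z0 w0 ∪ heavy Bad t q E Z1 w1) hr a L ha hL H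
    (le_trans (Nat.mul_le_mul_left _
      (le_trans (Finset.card_union_le _ _) (by omega))) hq2)
  rw [← ht] at hw2
  set Z := Z0 ∩ Z1 ∩ Z2 with hZ
  have hZc : E.card < 4 * Z.card := by
    have a1 := Finset.card_union_add_card_inter Z0 Z1
    have a2 := Finset.card_union_add_card_inter (Z0 ∩ Z1) Z2
    have a3 := Finset.card_le_card (Finset.union_subset hZ0 hZ1)
    have a4 := Finset.card_le_card
      (Finset.union_subset (Finset.inter_subset_left.trans hZ0 : Z0 ∩ Z1 ⊆ E) hZ2)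
    rw [hZ]
    omega
  have m0 : Z ⊆ Z0 := Finset.inter_subset_left.trans Finset.inter_subset_left
  have m1 : Z ⊆ Z1 := Finset.inter_subset_left.trans Finset.inter_subset_right
  have m2 : Z ⊆ Z2 := Finset.inter_subset_right
  let P : ι → ι → Prop := fun x y =>
    (∃ m ≤ t, ∃ m' ≤ t, Bad (w0 x m) (w1 y m')) ∨ (∃ m ≤ t, ∃ m' ≤ t, Bad (w0 x m) (w2 y m')) ∨
      (∃ m ≤ t, ∃ m' ≤ t, Bad (w1 x m) (w2 y m'))
  have hP : ∀ y ∈ Z, (Z.filter fun x => P x y).card ≤ E.card / 24 := by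
    intro y hy
    have c1 := pair_count (Finset.Subset.refl (heavy Bad t q E Z0 w0)) m0 (w1 y)
      (hw1 y (m1 hy)).2.2.1
    have c2 := pair_count (Finset.subset_union_left :
      heavy Bad t q E Z0 w0 ⊆ heavy Bad t q E Z0 w0 ∪ heavy Bad t q E Z1 w1) m0 (w2 y)
      (hw2 y (m2 hy)).2.2.1
    have c3 := pair_count (Finset.subset_union_right :
      heavy Bad t q E Z1 w1 ⊆ heavy Bad t q E Z0 w0 ∪ heavy Bad t q E Z1 w1) m1 (w2 y)
      (hw2 y (m2 hy)).2.2.1
    have c4 : (Z.filter fun x => P x y).card ≤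
        (Z.filter fun z => ∃ m ≤ t, ∃ m' ≤ t, Bad (w0 z m) (w1 y m')).card +
        ((Z.filter fun z => ∃ m ≤ t, ∃ m' ≤ t, Bad (w0 z m) (w2 y m')).card +
        (Z.filter fun z => ∃ m ≤ t, ∃ m' ≤ t, Bad (w1 z m) (w2 y m')).card) := by
      refine le_trans (Finset.card_le_card ?_) (le_trans (Finset.card_union_le _ _)
        (Nat.add_le_add_left (Finset.card_union_le _ _) _))
      intro x hx
      simp only [Finset.mem_filter, Finset.mem_union, P] at hx ⊢
      rcases hx with ⟨h1, h2 | h2 | h2⟩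
      · exact Or.inl ⟨h1, h2⟩
      · exact Or.inr (Or.inl ⟨h1, h2⟩)
      · exact Or.inr (Or.inr ⟨h1, h2⟩)
    rw [Nat.le_div_iff_mul_le (by norm_num)]
    have c5 : (t + 1) * ((Z.filter fun x => P x y).card * 24 * 3) ≤ (t + 1) * (E.card * 3) := by
      have := Nat.mul_le_mul_left q c4
      rw [hq] at this c1 c2 c3
      nlinarith
    have := Nat.le_of_mul_le_mul_left c5 (by omega)
    omega
  obtain ⟨x, hx, y, hy, z, hz, n1, n2, n3, n4, n5, n6⟩ :=
    exists_triple Z P (E.card / 24) (fun y hy => by convert hP y hy) (by omega)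
  let ws : Fin 3 → ι → ℕ → ι := ![w0, w1, w2]
  let ss : Fin 3 → ι := ![s0, s1, s2]
  let ts : Fin 3 → ι := ![x, y, z]
  have hts : ∀ j, ts j ∈ Z := by
    intro j
    fin_cases j
    · exact hx
    · exact hy
    · exact hz
  have hws : ∀ i, ∀ u ∈ Z, ws i u 0 = ss i ∧ ws i u t = u ∧ (∀ m ≤ t, ws i u m ∈ E) ∧
      ∀ m < t, Adj (ws i u m) (ws i u (m + 1)) := by
    intro i u hu
    fin_cases i
    · obtain ⟨a1, a2, a3, a4⟩ := hw0 u (m0 hu)
      exact ⟨a1, a2, fun m hm => (Finset.mem_sdiff.1 (a3 m hm)).1, a4⟩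
    · obtain ⟨a1, a2, a3, a4⟩ := hw1 u (m1 hu)
      exact ⟨a1, a2, fun m hm => (Finset.mem_sdiff.1 (a3 m hm)).1, a4⟩
    · obtain ⟨a1, a2, a3, a4⟩ := hw2 u (m2 hu)
      exact ⟨a1, a2, fun m hm => (Finset.mem_sdiff.1 (a3 m hm)).1, a4⟩
  have hnP : ∀ j l : Fin 3, j ≠ l → ¬ P (ts j) (ts l) := by
    intro j l hjl
    fin_cases j <;> fin_cases l <;> first | exact absurd rfl hjl | assumption
  have hnB : ∀ i j k l : Fin 3, i < k → j ≠ l → ∀ m ≤ t, ∀ m' ≤ t,
      ¬ Bad (ws i (ts j) m) (ws k (ts l) m') := by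
    intro i j k l hik hjl m hm m' hm' hB
    apply hnP j l hjl
    fin_cases i <;> fin_cases k <;> first
      | exact absurd hik (by decide)
      | exact Or.inl ⟨m, hm, m', hm', hB⟩
      | exact Or.inr (Or.inl ⟨m, hm, m', hm', hB⟩)
      | exact Or.inr (Or.inr ⟨m, hm, m', hm', hB⟩)
  refine k33 β lt t ss ts (fun i j => ws i (ts j)) (fun i j => (hws i _ (hts j)).1)
    (fun i j => (hws i _ (hts j)).2.1) (fun i j k l hik hjl m hm m' hm' => ?_) (fun j l hjl => ?_)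
  · obtain ⟨_, _, a3, a4⟩ := hws i _ (hts j)
    obtain ⟨_, _, b3, b4⟩ := hws k _ (hts l)
    exact hcr _ (a3 m hm.le) _ (a3 _ hm) _ (b3 m' hm'.le) _ (b3 _ hm') (a4 m hm) (b4 m' hm')
      (hnB i j k l hik hjl _ hm.le _ hm'.le) (hnB i j k l hik hjl _ hm.le _ hm')
      (hnB i j k l hik hjl _ hm _ hm'.le) (hnB i j k l hik hjl _ hm _ hm')
  · have := hnB 0 j 1 l (by decide) hjl t le_rfl t le_rfl
    rw [(hws 0 _ (hts j)).2.1, (hws 1 _ (hts l)).2.1] at this
    exact hlt _ (hZ0 (m0 (hts j))) _ (hZ0 (m0 (hts l))) this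

end Pool.Agent.P.MP_1f07eb_co.Log
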