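import Mathlib
import Pool.Agent.P.MP_1f07eb_co.LogSep

set_option autoImplicit false

namespace Pool.Agent.P.MP_1f07eb_co.Log

open Classical

variable {ι κ : Type*}

/-- No k members of E are pairwise related by Dis. -/
def Free (Dis : ι → ι → Prop) (k : ℕ) (E : Finset ι) : Prop :=
  ¬ ∃ F ⊆ E, F.card = k ∧ (F : Set ι).Pairwise Dis

lemma Free.mono {Dis : ι → ι → Prop} {k : ℕ} {E F : Finset ι} (h : Free Dis k E) (hF : F ⊆ E) :
    Free Dis k F := fun ⟨G, hG, h1, h2⟩ => h ⟨G, hG.trans hF, h1, h2⟩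

lemma Free.nbr {Dis : ι → ι → Prop} {k : ℕ} {E : Finset ι} (h : Free Dis (k + 1) E)
    (hs : ∀ p r, Dis p r → Dis r p) {v : ι} (hv : v ∈ E) (hi : ¬ Dis v v) :
    Free Dis k (E.filter (Dis v)) := by
  rintro ⟨G, hG, h1, h2⟩
  have hvG : v ∉ G := fun hh => hi (Finset.mem_filter.1 (hG hh)).2
  refine h ⟨insert v G, ?_, by rw [Finset.card_insert_of_notMem hvG, h1], ?_⟩
  · intro x hx
    rcases Finset.mem_insert.1 hx with rfl | hx
    · exact hv
    · exact (Finset.mem_filter.1 (hG hx)).1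
  · rw [Finset.coe_insert]
    refine h2.insert fun x hx _ => ?_
    have := (Finset.mem_filter.1 (hG hx)).2
    exact ⟨this, hs _ _ this⟩

lemma mem_bdry {Adj : ι → ι → Prop} {E S : Finset ι} {z : ι} :
    z ∈ bdry Adj E S ↔ z ∈ E \ S ∧ ∃ y ∈ S, Adj y z := by
  unfold bdry
  exact Finset.mem_filter

/-- The abstract data: keys play the part of half-ridges. -/
structure Data (E0 : Finset ι) (key : ι → Finset κ) (Dis Shr : ι → ι → Prop)
    (β : ι → ι → ι → ZMod 2) (lt : ι → ι → ZMod 2) : Prop where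
  ne : ∀ z ∈ E0, (key z).Nonempty
  symm : ∀ p r, Dis p r → Dis r p
  irr : ∀ z ∈ E0, ¬ Dis z z
  base : ∀ F ⊆ E0, Free Dis 2 F → F.card ≤ (F.biUnion key).card
  star : ∀ F ⊆ E0, ∀ v ∈ F, (F.filter (Shr v)).card ≤ 3 * (F.biUnion key).card
  ord : ∀ p ∈ E0, ∀ r ∈ E0, ¬ (Dis p r ∨ Shr p r) → lt p r + lt r p = 1
  cross : ∀ p ∈ E0, ∀ q ∈ E0, ∀ r ∈ E0, ∀ s ∈ E0, (∃ c ∈ key p, c ∈ key q) →
    (∃ c ∈ key r, c ∈ key s) → ¬ (Dis p r ∨ Shr p r) → ¬ (Dis p s ∨ Shr p s) →
    ¬ (Dis q r ∨ Shr q r) → ¬ (Dis q s ∨ Shr q s) → cr β lt p q r s = 0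

lemma level {E0 : Finset ι} {key : ι → Finset κ} {Dis Shr : ι → ι → Prop}
    {β : ι → ι → ι → ZMod 2} {lt : ι → ι → ZMod 2} (h : Data E0 key Dis Shr β lt)
    (k L D a K : ℕ) (ha : 1 ≤ a) (hK : K = 288 * a * (a + L * a + 1) ^ 2 * (D + 3))
    (hD : ∀ F ⊆ E0, F.card ≤ 2 ^ L → Free Dis k F → F.card ≤ D * (F.biUnion key).card)
    (j : ℕ) : ∀ r, j + r = a → ∀ E ⊆ E0, E.card ≤ 2 ^ L → Free Dis (k + 1) E →
      3 ^ j * E.card ≤ 4 ^ j → r * E.card ≤ a * (K * (E.biUnion key).card) := by
  have hK1 : 1 ≤ K := by rw [hK]; exact Nat.succ_le_of_lt (by positivity)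
  induction j with
  | zero =>
    intro r hr E hE _ _ hj
    rcases E.eq_empty_or_nonempty with rfl | ⟨z, hz⟩
    · simp
    · obtain ⟨c, hc⟩ := h.ne z (hE hz)
      have h1 : 1 ≤ (E.biUnion key).card :=
        Finset.card_pos.2 ⟨c, Finset.mem_biUnion.2 ⟨z, hz, hc⟩⟩
      have h2 : E.card ≤ K * (E.biUnion key).card := by
        have : 1 * 1 ≤ K * (E.biUnion key).card := Nat.mul_le_mul hK1 h1
        simp only [pow_zero] at hj
        omega
      exact Nat.mul_le_mul (by omega) h2
  | succ j ih =>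
    intro r hr E hE hL hF hj
    by_cases hd : E.card ≤ K * (E.biUnion key).card
    · exact Nat.mul_le_mul (by omega) hd
    have hb : ∀ v ∈ E, (E.filter fun x => Dis v x ∨ Shr v x).card ≤
        (D + 3) * (E.biUnion key).card := by
      intro v hv
      have c1 := hD (E.filter (Dis v)) ((Finset.filter_subset _ _).trans hE)
        (le_trans (Finset.card_filter_le _ _) hL) (hF.nbr h.symm hv (h.irr v (hE hv)))
      have c2 : ((E.filter (Dis v)).biUnion key).card ≤ (E.biUnion key).card :=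
        Finset.card_le_card (Finset.biUnion_subset_biUnion_of_subset_left _
          (Finset.filter_subset _ _))
      have c3 := h.star E hE v hv
      have c4 : (E.filter fun x => Dis v x ∨ Shr v x).card ≤
          (E.filter (Dis v)).card + (E.filter (Shr v)).card := by
        refine le_trans (Finset.card_le_card ?_) (Finset.card_union_le _ _)
        intro x hx
        simp only [Finset.mem_filter, Finset.mem_union] at hx ⊢
        tauto
      have c5 := Nat.mul_le_mul_left D c2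
      nlinarith
    obtain ⟨S, hS, s1, s2, s3⟩ := exists_sep (fun p q => ∃ c ∈ key p, c ∈ key q)
      (fun p r => Dis p r ∨ Shr p r) β lt E
      (fun z hz => by obtain ⟨c, hc⟩ := h.ne z (hE hz); exact ⟨c, hc, hc⟩)
      (fun p hp r hr => h.ord p (hE hp) r (hE hr))
      (fun p hp q hq r hr s hs => h.cross p (hE hp) q (hE hq) r (hE hr) s (hE hs))
      a L ((D + 3) * (E.biUnion key).card) ha hL (by omega)
      (fun v hv => by convert hb v hv) (by rw [← mul_assoc, ← hK]; omega)
    set B := bdry (fun p q => ∃ c ∈ key p, c ∈ key q) E S with hB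
    set T := (E \ S) \ B with hT
    have hBs : B ⊆ E \ S := fun z hz => (mem_bdry.1 hz).1
    have hTE : T ⊆ E := Finset.sdiff_subset.trans Finset.sdiff_subset
    have hc : S.card + T.card + B.card = E.card := by
      have a1 := Finset.card_sdiff_add_card_eq_card hBs
      have a2 := Finset.card_sdiff_add_card_eq_card hS
      rw [hT]
      omega
    have hdis : Disjoint (S.biUnion key) (T.biUnion key) := by
      rw [Finset.disjoint_left]
      intro c h1 h2
      obtain ⟨y, hy, hcy⟩ := Finset.mem_biUnion.1 h1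
      obtain ⟨z, hz, hcz⟩ := Finset.mem_biUnion.1 h2
      obtain ⟨hz1, hz2⟩ := Finset.mem_sdiff.1 hz
      exact hz2 (mem_bdry.2 ⟨hz1, y, hy, c, hcy, hcz⟩)
    have hh : (S.biUnion key).card + (T.biUnion key).card ≤ (E.biUnion key).card := by
      rw [← Finset.card_union_of_disjoint hdis]
      exact Finset.card_le_card (Finset.union_subset
        (Finset.biUnion_subset_biUnion_of_subset_left _ hS)
        (Finset.biUnion_subset_biUnion_of_subset_left _ hTE))
    have hp : ∀ n : ℕ, 4 * n ≤ 3 * E.card → 3 ^ j * n ≤ 4 ^ j := by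
      intro n hn
      have := Nat.mul_le_mul_left (3 ^ j) hn
      rw [pow_succ, pow_succ] at hj
      nlinarith
    have i1 := ih (r + 1) (by omega) S (hS.trans hE)
      (le_trans (Finset.card_le_card hS) hL) (hF.mono hS) (hp _ s2)
    have i2 := ih (r + 1) (by omega) T (hTE.trans hE)
      (le_trans (Finset.card_le_card hTE) hL) (hF.mono hTE) (hp _ (by omega))
    have i3 : (r + 1) * (S.card + T.card) ≤ a * (K * (E.biUnion key).card) := by
      have := Nat.mul_le_mul_left (a * K) hh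
      nlinarith
    have i4 : a * (r * E.card) ≤ a * ((r + 1) * (S.card + T.card)) := by
      have e1 : a * E.card ≤ a * (S.card + T.card) + E.card := by
        rw [← hc] at s3 ⊢
        nlinarith
      have e2 := Nat.mul_le_mul_left (r + 1) e1
      have e3 : (r + 1) * E.card ≤ a * E.card := Nat.mul_le_mul_right _ (by omega)
      nlinarith
    exact le_trans (Nat.le_of_mul_le_mul_left i4 (by omega)) i3

/-- The constants of the recursion on k. -/
def cst : ℕ → ℕ
  | 0 => 1
  | k + 1 => 600000 * (cst k + 3)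

lemma rec_main {E0 : Finset ι} {key : ι → Finset κ} {Dis Shr : ι → ι → Prop}
    {β : ι → ι → ι → ZMod 2} {lt : ι → ι → ZMod 2} (h : Data E0 key Dis Shr β lt)
    (L : ℕ) (hL : 1 ≤ L) (k : ℕ) : ∀ E ⊆ E0, E.card ≤ 2 ^ L → Free Dis (k + 2) E →
      E.card ≤ cst k * L ^ (5 * k) * (E.biUnion key).card := by
  induction k with
  | zero =>
    intro E hE _ hF
    simpa [cst] using h.base E hE hF
  | succ k ih =>
    intro E hE hc hF
    have h1 := level h (k + 2) L (cst k * L ^ (5 * k)) (6 * L) _ (by omega) rfl ih (3 * L) (3 * L)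
      (by ring) E hE hc hF (by
        calc 3 ^ (3 * L) * E.card ≤ 3 ^ (3 * L) * 2 ^ L := Nat.mul_le_mul_left _ hc
          _ = 54 ^ L := by rw [pow_mul, ← mul_pow]; norm_num
          _ ≤ 64 ^ L := Nat.pow_le_pow_left (by norm_num) _
          _ = 4 ^ (3 * L) := by rw [pow_mul]; norm_num)
    set K := 288 * (6 * L) * (6 * L + L * (6 * L) + 1) ^ 2 * (cst k * L ^ (5 * k) + 3) with hK
    have h2 : E.card ≤ 2 * K * (E.biUnion key).card := by
      have : 3 * L * E.card ≤ 3 * L * (2 * K * (E.biUnion key).card) := by nlinarith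
      exact Nat.le_of_mul_le_mul_left this (by omega)
    refine le_trans h2 (Nat.mul_le_mul_right _ ?_)
    have a1 : 6 * L + L * (6 * L) + 1 ≤ 13 * L ^ 2 := by nlinarith
    have a2 : cst k * L ^ (5 * k) + 3 ≤ (cst k + 3) * L ^ (5 * k) := by
      have : 1 ≤ L ^ (5 * k) := Nat.one_le_pow _ _ hL
      nlinarith
    calc 2 * K ≤ 2 * (288 * (6 * L) * (13 * L ^ 2) ^ 2 * ((cst k + 3) * L ^ (5 * k))) := by
          rw [hK]; gcongr
      _ = 584064 * ((cst k + 3) * L ^ (5 * (k + 1))) := by ring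
      _ ≤ 600000 * ((cst k + 3) * L ^ (5 * (k + 1))) := Nat.mul_le_mul_right _ (by norm_num)
      _ = cst (k + 1) * L ^ (5 * (k + 1)) := by simp only [cst]; ring

end Pool.Agent.P.MP_1f07eb_co.Log
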