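import Mathlib

set_option autoImplicit false

namespace Pool.Agent.P.MP_1f07eb_co.Log

open Classical

/-- The point z lies strictly below a point of the segment r s. -/
noncomputable def bel (z1 z2 r1 r2 s1 s2 : ℝ) : ZMod 2 :=
  if ∃ t : ℝ, 0 ≤ t ∧ t ≤ 1 ∧ z1 = (1 - t) * r1 + t * s1 ∧ z2 < (1 - t) * r2 + t * s2 then 1 else 0

/-- The indicator of x < y. -/
noncomputable def ltz (x y : ℝ) : ZMod 2 := if x < y then 1 else 0

lemma bel_swap (z1 z2 r1 r2 s1 s2 : ℝ) : bel z1 z2 r1 r2 s1 s2 = bel z1 z2 s1 s2 r1 r2 := by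
  unfold bel
  congr 1
  apply propext
  constructor <;>
  · rintro ⟨t, h0, h1, h2, h3⟩
    exact ⟨1 - t, by linarith, by linarith, by linarith, by linarith⟩

lemma seg_par {r1 r2 s1 s2 m x : ℝ} (hm : s2 = r2 + m * (s1 - r1)) (h1 : r1 ≤ x) (h2 : x ≤ s1) :
    ∃ t : ℝ, 0 ≤ t ∧ t ≤ 1 ∧ x = (1 - t) * r1 + t * s1 ∧
      r2 + m * (x - r1) = (1 - t) * r2 + t * s2 := by
  rcases eq_or_lt_of_le (h1.trans h2) with h | h
  · have : x = r1 := by linarith
    exact ⟨0, le_rfl, zero_le_one, by linarith, by rw [this]; ring⟩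
  · have hp : 0 < s1 - r1 := by linarith
    refine ⟨(x - r1) / (s1 - r1), div_nonneg (by linarith) hp.le,
      (div_le_one hp).2 (by linarith), ?_, ?_⟩
    · field_simp
      ring
    · rw [hm]
      field_simp
      ring

lemma bel_eq {r1 r2 s1 s2 m : ℝ} (z1 z2 : ℝ) (h : r1 ≤ s1) (hm : s2 = r2 + m * (s1 - r1)) :
    bel z1 z2 r1 r2 s1 s2 = if r1 ≤ z1 ∧ z1 ≤ s1 ∧ z2 < r2 + m * (z1 - r1) then 1 else 0 := by
  unfold bel
  congr 1
  apply propext
  constructor
  · rintro ⟨t, h0, h1, h2, h3⟩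
    refine ⟨by nlinarith, by nlinarith, ?_⟩
    rw [h2]
    rw [hm] at h3
    linarith
  · rintro ⟨h1, h2, h3⟩
    obtain ⟨t, a0, a1, a2, a3⟩ := seg_par hm h1 h2
    exact ⟨t, a0, a1, a2, by linarith⟩

lemma sign_const (A B x y : ℝ) (hxy : x ≤ y) (h : ∀ u, x ≤ u → u ≤ y → A + B * u ≠ 0) :
    A + B * x < 0 ↔ A + B * y < 0 := by
  have hc : ContinuousOn (fun u : ℝ => A + B * u) (Set.uIcc x y) := by fun_prop
  have hi := intermediate_value_uIcc hc
  rw [Set.uIcc_of_le hxy] at hi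
  have key : (0 : ℝ) ∉ Set.uIcc (A + B * x) (A + B * y) := by
    intro h0
    obtain ⟨u, hu, hu0⟩ := hi h0
    exact h u hu.1 hu.2 hu0
  rw [Set.mem_uIcc] at key
  push Not at key
  constructor
  · intro h1
    exact key.1 h1.le
  · intro h1
    exact key.2 h1.le

lemma seg_cross_le {p1 p2 q1 q2 r1 r2 s1 s2 : ℝ} (hpq : p1 ≤ q1) (hrs : r1 ≤ s1)
    (n1 : p1 ≠ r1) (n2 : p1 ≠ s1) (n3 : q1 ≠ r1) (n4 : q1 ≠ s1)
    (e1 : p1 = q1 → p2 = q2) (e2 : r1 = s1 → r2 = s2)
    (hno : ¬ ∃ t t' : ℝ, 0 ≤ t ∧ t ≤ 1 ∧ 0 ≤ t' ∧ t' ≤ 1 ∧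
      (1 - t) * p1 + t * q1 = (1 - t') * r1 + t' * s1 ∧
      (1 - t) * p2 + t * q2 = (1 - t') * r2 + t' * s2) :
    bel p1 p2 r1 r2 s1 s2 + bel q1 q2 r1 r2 s1 s2 + bel r1 r2 p1 p2 q1 q2 +
      bel s1 s2 p1 p2 q1 q2 + ltz p1 r1 + ltz q1 r1 + ltz p1 s1 + ltz q1 s1 = 0 := by
  have hs : ∀ a1 a2 b1 b2 : ℝ, (a1 = b1 → a2 = b2) → ∃ m, b2 = a2 + m * (b1 - a1) := by
    intro a1 a2 b1 b2 h
    by_cases h1 : a1 = b1
    · exact ⟨0, by rw [h h1]; ring⟩
    · have : b1 - a1 ≠ 0 := fun h2 => h1 (by linarith)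
      exact ⟨(b2 - a2) / (b1 - a1), by field_simp; ring⟩
  obtain ⟨m, hm⟩ := hs _ _ _ _ e1
  obtain ⟨m', hm'⟩ := hs _ _ _ _ e2
  set A := p2 - m * p1 - r2 + m' * r1 with hA
  set B := m - m' with hB
  have hz : ∀ u, p1 ≤ u → u ≤ q1 → r1 ≤ u → u ≤ s1 → A + B * u ≠ 0 := by
    intro u a1 a2 a3 a4 h0
    obtain ⟨t, b0, b1, b2, b3⟩ := seg_par hm a1 a2
    obtain ⟨t', c0, c1, c2, c3⟩ := seg_par hm' a3 a4
    refine hno ⟨t, t', b0, b1, c0, c1, by linarith, ?_⟩
    rw [← b3, ← c3]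
    rw [hA, hB] at h0
    linarith
  have hsg : ∀ x y, x ≤ y → p1 ≤ x → r1 ≤ x → y ≤ q1 → y ≤ s1 →
      (A + B * x < 0 ↔ A + B * y < 0) := fun x y hxy a1 a2 a3 a4 =>
    sign_const A B x y hxy fun u b1 b2 => hz u (by linarith) (by linarith) (by linarith) (by linarith)
  have f1 : p2 < r2 + m' * (p1 - r1) ↔ A + B * p1 < 0 := by
    rw [hA, hB]; constructor <;> intro h <;> linarith
  have f2 : q2 < r2 + m' * (q1 - r1) ↔ A + B * q1 < 0 := by
    rw [hA, hB, hm]; constructor <;> intro h <;> linarith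
  have f3 : r2 < p2 + m * (r1 - p1) ↔ 0 < A + B * r1 := by
    rw [hA, hB]; constructor <;> intro h <;> linarith
  have f4 : s2 < p2 + m * (s1 - p1) ↔ 0 < A + B * s1 := by
    rw [hA, hB, hm']; constructor <;> intro h <;> linarith
  have hpos : ∀ u, p1 ≤ u → u ≤ q1 → r1 ≤ u → u ≤ s1 → (0 < A + B * u ↔ ¬ A + B * u < 0) := by
    intro u a1 a2 a3 a4
    have := hz u a1 a2 a3 a4
    constructor
    · intro h; linarith
    · intro h; exact lt_of_le_of_ne (not_lt.1 h) this.symm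
  rw [bel_eq p1 p2 hrs hm', bel_eq q1 q2 hrs hm', bel_eq r1 r2 hpq hm, bel_eq s1 s2 hpq hm]
  simp only [f1, f2, f3, f4]
  unfold ltz
  rcases lt_or_gt_of_ne n1 with a | a
  · have a' : ¬ r1 ≤ p1 := not_le.2 a
    have a2 : p1 < s1 := by linarith
    rcases lt_or_gt_of_ne n3 with b | b
    · have b' : ¬ r1 ≤ q1 := not_le.2 b
      have b2 : q1 < s1 := by linarith
      have b3 : ¬ s1 ≤ q1 := not_le.2 b2
      simp only [a, a', a2, b, b', b2, b3, false_and, and_false, if_true, if_false]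
      decide
    · have b' : ¬ q1 < r1 := not_lt.2 b.le
      rcases lt_or_gt_of_ne n4 with c | c
      · have c' : ¬ s1 ≤ q1 := not_le.2 c
        have g1 := hsg r1 q1 b.le a.le le_rfl le_rfl c.le
        have g2 := hpos r1 a.le b.le le_rfl hrs
        simp only [a, a', a2, a.le, b.le, b', c, c.le, c', g2, g1, false_and, and_false, true_and,
          if_true, if_false]
        by_cases hq : A + B * q1 < 0
        · simp only [hq, not_true, if_true, if_false]; decide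
        · simp only [hq, not_false_iff, if_true, if_false]; decide
      · have c' : ¬ q1 ≤ s1 := not_le.2 c
        have c'' : ¬ q1 < s1 := not_lt.2 c.le
        have g1 := hsg r1 s1 hrs a.le le_rfl c.le le_rfl
        have g2 := hpos r1 a.le b.le le_rfl hrs
        have g3 := hpos s1 a2.le c.le hrs le_rfl
        simp only [a, a', a2, a.le, a2.le, b.le, b', c.le, c', c'', g2, g3, g1, false_and,
          and_false, true_and, if_true, if_false]
        by_cases hq : A + B * s1 < 0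
        · simp only [hq, not_true, if_false]; decide
        · simp only [hq, not_false_iff, if_true]; decide
  · have a' : ¬ p1 ≤ r1 := not_le.2 a
    have a'' : ¬ p1 < r1 := not_lt.2 a.le
    have b : r1 < q1 := by linarith
    have b' : ¬ q1 < r1 := not_lt.2 b.le
    rcases lt_or_gt_of_ne n2 with c | c
    · rcases lt_or_gt_of_ne n4 with d | d
      · have d' : ¬ s1 ≤ q1 := not_le.2 d
        have g1 := hsg p1 q1 hpq le_rfl a.le le_rfl d.le
        simp only [a.le, a', a'', b.le, b', c, c.le, d, d.le, d', g1, false_and,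
          and_false, true_and, if_true, if_false]
        by_cases hq : A + B * q1 < 0
        · simp only [hq, if_true]; decide
        · simp only [hq, if_false]; decide
      · have d' : ¬ q1 ≤ s1 := not_le.2 d
        have d'' : ¬ q1 < s1 := not_lt.2 d.le
        have g1 := hsg p1 s1 c.le le_rfl a.le d.le le_rfl
        have g3 := hpos s1 c.le d.le hrs le_rfl
        simp only [a.le, a', a'', b.le, b', c, c.le, d.le, d', d'', g1, g3, false_and,
          and_false, true_and, if_true, if_false]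
        by_cases hq : A + B * s1 < 0
        · simp only [hq, not_true, if_true, if_false]; decide
        · simp only [hq, not_false_iff, if_true, if_false]; decide
    · have c' : ¬ p1 ≤ s1 := not_le.2 c
      have c'' : ¬ p1 < s1 := not_lt.2 c.le
      have d : s1 < q1 := by linarith
      have d' : ¬ q1 ≤ s1 := not_le.2 d
      have d'' : ¬ q1 < s1 := not_lt.2 d.le
      simp only [a', a'', b', c', c'', d', d'', false_and, and_false, if_false]
      decide

lemma seg_cross {p1 p2 q1 q2 r1 r2 s1 s2 : ℝ}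
    (n1 : p1 ≠ r1) (n2 : p1 ≠ s1) (n3 : q1 ≠ r1) (n4 : q1 ≠ s1)
    (e1 : p1 = q1 → p2 = q2) (e2 : r1 = s1 → r2 = s2)
    (hno : ¬ ∃ t t' : ℝ, 0 ≤ t ∧ t ≤ 1 ∧ 0 ≤ t' ∧ t' ≤ 1 ∧
      (1 - t) * p1 + t * q1 = (1 - t') * r1 + t' * s1 ∧
      (1 - t) * p2 + t * q2 = (1 - t') * r2 + t' * s2) :
    bel p1 p2 r1 r2 s1 s2 + bel q1 q2 r1 r2 s1 s2 + bel r1 r2 p1 p2 q1 q2 +
      bel s1 s2 p1 p2 q1 q2 + ltz p1 r1 + ltz q1 r1 + ltz p1 s1 + ltz q1 s1 = 0 := by
  rcases le_total p1 q1 with a | a <;> rcases le_total r1 s1 with b | b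
  · exact seg_cross_le a b n1 n2 n3 n4 e1 e2 hno
  · have := seg_cross_le (p2 := p2) (q2 := q2) (r2 := s2) (s2 := r2) a b n2 n1 n4 n3 e1
      (fun h => (e2 h.symm).symm) (by
        rintro ⟨t, t', h0, h1, h2, h3, h4, h5⟩
        exact hno ⟨t, 1 - t', h0, h1, by linarith, by linarith, by linarith, by linarith⟩)
    rw [bel_swap p1 p2 r1, bel_swap q1 q2 r1]
    linear_combination this
  · have := seg_cross_le (p2 := q2) (q2 := p2) (r2 := r2) (s2 := s2) a b n3 n4 n1 n2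
      (fun h => (e1 h.symm).symm) e2 (by
        rintro ⟨t, t', h0, h1, h2, h3, h4, h5⟩
        exact hno ⟨1 - t, t', by linarith, by linarith, h2, h3, by linarith, by linarith⟩)
    rw [bel_swap r1 r2 p1, bel_swap s1 s2 p1]
    linear_combination this
  · have := seg_cross_le (p2 := q2) (q2 := p2) (r2 := s2) (s2 := r2) a b n4 n3 n2 n1
      (fun h => (e1 h.symm).symm) (fun h => (e2 h.symm).symm) (by
        rintro ⟨t, t', h0, h1, h2, h3, h4, h5⟩
        exact hno ⟨1 - t, 1 - t', by linarith, by linarith, by linarith, by linarith,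
          by linarith, by linarith⟩)
    rw [bel_swap p1 p2 r1, bel_swap q1 q2 r1, bel_swap r1 r2 p1, bel_swap s1 s2 p1]
    linear_combination this

end Pool.Agent.P.MP_1f07eb_co.Log
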