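import Mathlib
import Pool.Agent.P.MP_1f07eb_co.LogRec
import Pool.Agent.P.MP_1f07eb_co.LogSeg

set_option autoImplicit false

namespace Pool.Agent.P.MP_1f07eb_co.Log

open Classical

variable {P : Type*}

lemma biU_card {α γ : Type*} (i1 i2 : DecidableEq γ) (s : Finset α) (f : α → Finset γ) :
    (@Finset.biUnion α γ i1 s f).card = (@Finset.biUnion α γ i2 s f).card := by
  rw [Subsingleton.elim i1 i2]

lemma fil_card {α : Type*} (p : α → Prop) (i1 i2 : DecidablePred p) (s : Finset α) :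
    (@Finset.filter α p i1 s).card = (@Finset.filter α p i2 s).card := by
  rw [Subsingleton.elim i1 i2]

/-- The orientation of the projected triple. -/
def dt (X Y : P → ℝ) (x y z : P) : ℝ := (X y - X x) * (Y z - Y x) - (Y y - Y x) * (X z - X x)

/-- The half-ridges of a triangle: its positively oriented ordered pairs. -/
noncomputable def hkey (X Y : P → ℝ) (e : Finset P) : Finset (P × P) :=
  (e ×ˢ e).filter fun c => ∃ z ∈ e, 0 < dt X Y c.1 c.2 z

lemma mem_hkey {X Y : P → ℝ} {e : Finset P} {c : P × P} :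
    c ∈ hkey X Y e ↔ c.1 ∈ e ∧ c.2 ∈ e ∧ ∃ z ∈ e, 0 < dt X Y c.1 c.2 z := by
  unfold hkey
  rw [Finset.mem_filter, Finset.mem_product, and_assoc]

lemma dt_ne {X Y : P → ℝ} {x y z : P} (h : 0 < dt X Y x y z) : x ≠ y ∧ x ≠ z ∧ y ≠ z := by
  refine ⟨?_, ?_, ?_⟩ <;> rintro rfl <;> unfold dt at h <;> linarith

lemma eq3 {e : Finset P} (hc : e.card = 3) {x y z : P} (hx : x ∈ e) (hy : y ∈ e) (hz : z ∈ e)
    (h1 : x ≠ y) (h2 : x ≠ z) (h3 : y ≠ z) : e = {x, y, z} := by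
  symm
  apply Finset.eq_of_subset_of_card_le
  · intro w hw
    simp only [Finset.mem_insert, Finset.mem_singleton] at hw
    rcases hw with rfl | rfl | rfl <;> assumption
  · rw [hc, Finset.card_eq_three.2 ⟨x, y, z, h1, h2, h3, rfl⟩]

lemma exists_plane {X Y Z : P → ℝ} {x y z : P} (h : dt X Y x y z ≠ 0) :
    ∃ u v c : ℝ, ∀ p ∈ ({x, y, z} : Finset P), Z p = u * X p + v * Y p + c := by
  refine ⟨((Z y - Z x) * (Y z - Y x) - (Z z - Z x) * (Y y - Y x)) / dt X Y x y z,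
    ((X y - X x) * (Z z - Z x) - (X z - X x) * (Z y - Z x)) / dt X Y x y z,
    Z x - ((Z y - Z x) * (Y z - Y x) - (Z z - Z x) * (Y y - Y x)) / dt X Y x y z * X x -
      ((X y - X x) * (Z z - Z x) - (X z - X x) * (Z y - Z x)) / dt X Y x y z * Y x, ?_⟩
  intro p hp
  simp only [Finset.mem_insert, Finset.mem_singleton] at hp
  rcases hp with rfl | rfl | rfl
  · ring
  · field_simp
    unfold dt
    ring
  · field_simp
    unfold dt
    ring

lemma mid {X Y Z : P → ℝ} {p q : Finset P} (hp : p.card = 3) (hq : q.card = 3) {c : P × P}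
    (cp : c ∈ hkey X Y p) (cq : c ∈ hkey X Y q) {u1 v1 c1 u2 v2 c2 t : ℝ}
    (h1 : ∀ w ∈ p, Z w = u1 * X w + v1 * Y w + c1) (h2 : ∀ w ∈ q, Z w = u2 * X w + v2 * Y w + c2)
    (t0 : 0 ≤ t) (t1 : t ≤ 1) {u v d : ℝ} (hu : u = (1 - t) * u1 + t * u2)
    (hv : v = (1 - t) * v1 + t * v2) (hd : d = (1 - t) * c1 + t * c2) :
    Z c.1 = u * X c.1 + v * Y c.1 + d ∧ Z c.2 = u * X c.2 + v * Y c.2 + d ∧
      (((∀ w ∈ p, Z w ≤ u * X w + v * Y w + d) ∧ ∀ w ∈ q, u * X w + v * Y w + d ≤ Z w) ∨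
       ((∀ w ∈ q, Z w ≤ u * X w + v * Y w + d) ∧ ∀ w ∈ p, u * X w + v * Y w + d ≤ Z w)) := by
  obtain ⟨x, y⟩ := c
  obtain ⟨hx, hy, z1, hz1, d1⟩ := mem_hkey.1 cp
  obtain ⟨hx', hy', z2, hz2, d2⟩ := mem_hkey.1 cq
  simp only at hx hy hx' hy' d1 d2 ⊢
  have ax := h1 x hx
  have ay := h1 y hy
  have bx := h2 x hx'
  have by' := h2 y hy'
  have az := h1 z1 hz1
  have bz := h2 z2 hz2
  have ex : Z x = u * X x + v * Y x + d := by
    rw [hu, hv, hd]; linear_combination (1 - t) * ax + t * bx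
  have ey : Z y = u * X y + v * Y y + d := by
    rw [hu, hv, hd]; linear_combination (1 - t) * ay + t * by'
  obtain ⟨n1, n2, n3⟩ := dt_ne d1
  obtain ⟨_, n5, n6⟩ := dt_ne d2
  have ep := eq3 hp hx hy hz1 n1 n2 n3
  have eq := eq3 hq hx' hy' hz2 n1 n5 n6
  set g1 := (u2 - u1) * X z1 + (v2 - v1) * Y z1 + (c2 - c1) with hg1
  set g2 := (u2 - u1) * X z2 + (v2 - v1) * Y z2 + (c2 - c1) with hg2
  have key : g1 * dt X Y x y z2 = g2 * dt X Y x y z1 := by
    rw [hg1, hg2]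
    unfold dt
    linear_combination
      ((X z1 - X x) * (Y z2 - Y x) - (Y z1 - Y x) * (X z2 - X x)) * (ay - by' - ax + bx) +
      (((X y - X x) * (Y z2 - Y x) - (Y y - Y x) * (X z2 - X x)) -
        ((X y - X x) * (Y z1 - Y x) - (Y y - Y x) * (X z1 - X x))) * (ax - bx)
  have e1 : u * X z1 + v * Y z1 + d - Z z1 = t * g1 := by
    rw [hu, hv, hd, hg1, az]; ring
  have e2 : u * X z2 + v * Y z2 + d - Z z2 = -((1 - t) * g2) := by
    rw [hu, hv, hd, hg2, bz]; ring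
  refine ⟨ex, ey, ?_⟩
  have t2 : 0 ≤ 1 - t := by linarith
  rcases le_total 0 g1 with s1 | s1
  · have s2 : 0 ≤ g2 := by
      by_contra hn
      have := mul_neg_of_neg_of_pos (not_le.1 hn) d1
      have := mul_nonneg s1 d2.le
      linarith
    have f1 := mul_nonneg t0 s1
    have f2 := mul_nonneg t2 s2
    left
    constructor
    · intro w hw
      rw [ep] at hw
      simp only [Finset.mem_insert, Finset.mem_singleton] at hw
      rcases hw with rfl | rfl | rfl <;> linarith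
    · intro w hw
      rw [eq] at hw
      simp only [Finset.mem_insert, Finset.mem_singleton] at hw
      rcases hw with rfl | rfl | rfl <;> linarith
  · have s2 : g2 ≤ 0 := by
      by_contra hn
      have := mul_pos (not_le.1 hn) d1
      have := mul_nonpos_of_nonpos_of_nonneg s1 d2.le
      linarith
    have f1 := mul_nonpos_of_nonneg_of_nonpos t0 s1
    have f2 := mul_nonpos_of_nonneg_of_nonpos t2 s2
    right
    constructor
    · intro w hw
      rw [eq] at hw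
      simp only [Finset.mem_insert, Finset.mem_singleton] at hw
      rcases hw with rfl | rfl | rfl <;> linarith
    · intro w hw
      rw [ep] at hw
      simp only [Finset.mem_insert, Finset.mem_singleton] at hw
      rcases hw with rfl | rfl | rfl <;> linarith

lemma key_at {X Y : P → ℝ} {V : Finset P}
    (G3 : ∀ x ∈ V, ∀ y ∈ V, ∀ z ∈ V, x ≠ y → x ≠ z → y ≠ z → dt X Y x y z ≠ 0)
    {e : Finset P} (he : e ⊆ V) (hc : e.card = 3) {w : P} (hw : w ∈ e) :
    ∃ c ∈ hkey X Y e, e = {c.1, c.2, w} := by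
  have h2 : (e.erase w).card = 2 := by rw [Finset.card_erase_of_mem hw, hc]
  obtain ⟨x, y, hxy, h3⟩ := Finset.card_eq_two.1 h2
  have hx : x ∈ e.erase w := by rw [h3]; simp
  have hy : y ∈ e.erase w := by rw [h3]; simp
  obtain ⟨xw, hx⟩ := Finset.mem_erase.1 hx
  obtain ⟨yw, hy⟩ := Finset.mem_erase.1 hy
  rcases lt_or_gt_of_ne (G3 x (he hx) y (he hy) w (he hw) hxy xw yw) with h | h
  · refine ⟨(y, x), mem_hkey.2 ⟨hy, hx, w, hw, ?_⟩, eq3 hc hy hx hw hxy.symm yw xw⟩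
    unfold dt at h ⊢
    simp only
    linarith
  · exact ⟨(x, y), mem_hkey.2 ⟨hx, hy, w, hw, h⟩, eq3 hc hx hy hw hxy xw yw⟩

lemma dual_data {X Y Z : P → ℝ} {V : Finset P}
    (G3 : ∀ x ∈ V, ∀ y ∈ V, ∀ z ∈ V, x ≠ y → x ≠ z → y ≠ z → dt X Y x y z ≠ 0)
    (G4 : ∀ x ∈ V, ∀ y ∈ V, ∀ z ∈ V, ∀ w ∈ V, x ≠ y → x ≠ z → y ≠ z → x ≠ w → y ≠ w → z ≠ w →
      ∀ u v c : ℝ, Z x = u * X x + v * Y x + c → Z y = u * X y + v * Y y + c →
        Z z = u * X z + v * Y z + c → Z w = u * X w + v * Y w + c → False)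
    (Dis : Finset P → Finset P → Prop) (hs : ∀ e f, Dis e f → Dis f e)
    (hi : ∀ e : Finset P, e.Nonempty → ¬ Dis e e)
    (hsep : ∀ (e f : Finset P) (u v c c' : ℝ), c < c' → (∀ p ∈ e, Z p ≤ u * X p + v * Y p + c) →
      (∀ p ∈ f, u * X p + v * Y p + c' ≤ Z p) → Dis e f)
    (E0 : Finset (Finset P)) (hE : ∀ e ∈ E0, e ⊆ V ∧ e.card = 3)
    (hbase : ∀ F ⊆ E0, Free Dis 2 F → F.card ≤ (F.biUnion fun e => e.powersetCard 2).card) :
    ∃ β lt, Data E0 (hkey X Y) Dis (fun e f => ∃ x ∈ e, x ∈ f) β lt := by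
  have hpl : ∀ e : Finset P, ∃ u v c : ℝ, e ∈ E0 → ∀ p ∈ e, Z p = u * X p + v * Y p + c := by
    intro e
    by_cases he : e ∈ E0
    · obtain ⟨x, y, z, h1, h2, h3, rfl⟩ := Finset.card_eq_three.1 (hE e he).2
      have hV := (hE _ he).1
      obtain ⟨u, v, c, h⟩ := exists_plane (Z := Z)
        (G3 x (hV (by simp)) y (hV (by simp)) z (hV (by simp)) h1 h2 h3)
      exact ⟨u, v, c, fun _ => h⟩
    · exact ⟨0, 0, 0, fun h => absurd h he⟩
  choose U W C hpl using hpl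
  obtain ⟨γ, hγ⟩ := Infinite.exists_notMem_finset
    ((E0 ×ˢ E0).image fun ef => (U ef.2 - U ef.1) / (W ef.1 - W ef.2))
  have hgen : ∀ e ∈ E0, ∀ f ∈ E0, U e + γ * W e = U f + γ * W f → W e = W f := by
    intro e he f hf h
    by_contra hne
    apply hγ
    refine Finset.mem_image.2 ⟨(e, f), Finset.mem_product.2 ⟨he, hf⟩, ?_⟩
    have : W e - W f ≠ 0 := sub_ne_zero.2 hne
    simp only
    field_simp
    linarith
  have hne : ∀ p ∈ E0, ∀ r ∈ E0, ¬ (Dis p r ∨ ∃ x ∈ p, x ∈ r) →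
      U p + γ * W p ≠ U r + γ * W r := by
    intro p hp r hr hb h
    have h1 := hgen p hp r hr h
    have h2 : U p = U r := by rw [h1] at h; linarith
    apply hb
    rcases lt_trichotomy (C p) (C r) with h3 | h3 | h3
    · exact Or.inl (hsep p r (U p) (W p) _ _ h3 (fun w hw => (hpl p hp w hw).le)
        (fun w hw => by rw [h1, h2]; exact (hpl r hr w hw).ge))
    · right
      by_contra hsh
      obtain ⟨x, y, z, a1, a2, a3, e1⟩ := Finset.card_eq_three.1 (hE p hp).2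
      obtain ⟨w, hw⟩ : r.Nonempty := Finset.card_pos.1 (by rw [(hE r hr).2]; norm_num)
      have hx : x ∈ p := by rw [e1]; simp
      have hy : y ∈ p := by rw [e1]; simp
      have hz : z ∈ p := by rw [e1]; simp
      have hV := (hE p hp).1
      refine G4 x (hV hx) y (hV hy) z (hV hz) w ((hE r hr).1 hw) a1 a2 a3 ?_ ?_ ?_ (U p) (W p) (C p)
        (hpl p hp x hx) (hpl p hp y hy) (hpl p hp z hz) (by rw [h1, h2, h3]; exact hpl r hr w hw)
      · rintro rfl; exact hsh ⟨_, hx, hw⟩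
      · rintro rfl; exact hsh ⟨_, hy, hw⟩
      · rintro rfl; exact hsh ⟨_, hz, hw⟩
    · exact Or.inl (hs _ _ (hsep r p (U p) (W p) _ _ h3
        (fun w hw => by rw [h1, h2]; exact (hpl r hr w hw).le) (fun w hw => (hpl p hp w hw).ge)))
  refine ⟨fun z r s => bel (U z + γ * W z) (W z) (U r + γ * W r) (W r) (U s + γ * W s) (W s),
    fun p r => ltz (U p + γ * W p) (U r + γ * W r), ?_, hs, ?_, ?_, ?_, ?_, ?_⟩
  · intro z hz
    obtain ⟨w, hw⟩ : z.Nonempty := Finset.card_pos.1 (by rw [(hE z hz).2]; norm_num)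
    obtain ⟨c, hc, _⟩ := key_at G3 (hE z hz).1 (hE z hz).2 hw
    exact ⟨c, hc⟩
  · intro z hz
    exact hi z (Finset.card_pos.1 (by rw [(hE z hz).2]; norm_num))
  · intro F hF hfree
    have hs1 : (F.biUnion fun e => e.powersetCard 2) ⊆
        (F.biUnion (hkey X Y)).image fun c => {c.1, c.2} := by
      intro T hT
      obtain ⟨e, he, hT⟩ := Finset.mem_biUnion.1 hT
      obtain ⟨hTe, hTc⟩ := Finset.mem_powersetCard.1 hT
      obtain ⟨w, hw, hwT⟩ := Finset.exists_mem_notMem_of_card_lt_card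
        (show T.card < e.card by rw [hTc, (hE e (hF he)).2]; norm_num)
      obtain ⟨c, hc, e1⟩ := key_at G3 (hE e (hF he)).1 (hE e (hF he)).2 hw
      refine Finset.mem_image.2 ⟨c, Finset.mem_biUnion.2 ⟨e, he, hc⟩, ?_⟩
      symm
      apply Finset.eq_of_subset_of_card_le
      · intro x hx
        have h1 := hTe hx
        rw [e1] at h1
        simp only [Finset.mem_insert, Finset.mem_singleton] at h1 ⊢
        rcases h1 with h1 | h1 | h1
        · exact Or.inl h1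
        · exact Or.inr h1
        · exact absurd (h1 ▸ hx) hwT
      · rw [hTc]
        exact Finset.card_le_two
    have hs3 : F.card ≤ (F.biUnion (hkey X Y)).card :=
      le_trans (hbase F hF hfree) (le_trans (Finset.card_le_card hs1) Finset.card_image_le)
    exact le_trans hs3 (le_of_eq (biU_card _ _ _ _))
  · intro F hF v hv
    have hs1 : (F.filter fun f => ∃ x ∈ v, x ∈ f) ⊆
        v.biUnion fun w => (F.biUnion (hkey X Y)).image fun c => {c.1, c.2, w} := by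
      intro f hf
      obtain ⟨hf, w, hw, hwf⟩ := Finset.mem_filter.1 hf
      obtain ⟨c, hc, e⟩ := key_at G3 (hE f (hF hf)).1 (hE f (hF hf)).2 hwf
      exact Finset.mem_biUnion.2 ⟨w, hw, Finset.mem_image.2
        ⟨c, Finset.mem_biUnion.2 ⟨f, hf, hc⟩, e.symm⟩⟩
    have hs2 := Finset.card_biUnion_le_card_mul v
      (fun w => (F.biUnion (hkey X Y)).image fun c => ({c.1, c.2, w} : Finset P))
      (F.biUnion (hkey X Y)).card (fun w _ => Finset.card_image_le)
    rw [(hE v (hF hv)).2] at hs2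
    have hs3 : (F.filter fun f => ∃ x ∈ v, x ∈ f).card ≤ 3 * (F.biUnion (hkey X Y)).card :=
      le_trans (Finset.card_le_card hs1) hs2
    exact le_trans (le_of_eq (fil_card _ _ _ _))
      (le_trans hs3 (Nat.mul_le_mul_left 3 (le_of_eq (biU_card _ _ _ _))))
  · intro p hp r hr hb
    have := hne p hp r hr hb
    unfold ltz
    rcases lt_or_gt_of_ne this with h | h
    · simp [h, not_lt.2 h.le]
    · simp [h, not_lt.2 h.le]
  · intro p hp q hq r hr s hs' ⟨c, cp, cq⟩ ⟨c', cr', cs⟩ b1 b2 b3 b4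
    unfold cr
    refine seg_cross (hne p hp r hr b1) (hne p hp s hs' b2) (hne q hq r hr b3) (hne q hq s hs' b4)
      (hgen p hp q hq) (hgen r hr s hs') ?_
    rintro ⟨t, t', h0, h1, h2, h3, h4, h5⟩
    have h6 : (1 - t) * U p + t * U q = (1 - t') * U r + t' * U s := by
      linear_combination h4 - γ * h5
    obtain ⟨m1, m2, m3⟩ := mid (hE p hp).2 (hE q hq).2 cp cq (hpl p hp) (hpl q hq) h0 h1 rfl rfl rfl
    obtain ⟨k1, k2, k3⟩ := mid (hE r hr).2 (hE s hs').2 cr' cs (hpl r hr) (hpl s hs') h2 h3 h6 h5 rfl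
    rcases lt_trichotomy ((1 - t) * C p + t * C q) ((1 - t') * C r + t' * C s) with h7 | h7 | h7
    · rcases m3 with m3 | m3 <;> rcases k3 with k3 | k3
      · exact b2 (Or.inl (hsep _ _ _ _ _ _ h7 m3.1 k3.2))
      · exact b1 (Or.inl (hsep _ _ _ _ _ _ h7 m3.1 k3.2))
      · exact b4 (Or.inl (hsep _ _ _ _ _ _ h7 m3.1 k3.2))
      · exact b3 (Or.inl (hsep _ _ _ _ _ _ h7 m3.1 k3.2))
    · obtain ⟨x1, x2, z, _, d1⟩ := mem_hkey.1 cp
      obtain ⟨y1, y2, z', _, d2⟩ := mem_hkey.1 cr'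
      have hV := (hE p hp).1
      have hV' := (hE r hr).1
      rw [← h7] at k1 k2
      refine G4 c.1 (hV x1) c.2 (hV x2) c'.1 (hV' y1) c'.2 (hV' y2) (dt_ne d1).1 ?_ ?_ ?_ ?_
        (dt_ne d2).1 _ _ _ m1 m2 k1 k2
      · intro h; exact b1 (Or.inr ⟨_, x1, h ▸ y1⟩)
      · intro h; exact b1 (Or.inr ⟨_, x2, h ▸ y1⟩)
      · intro h; exact b1 (Or.inr ⟨_, x1, h ▸ y2⟩)
      · intro h; exact b1 (Or.inr ⟨_, x2, h ▸ y2⟩)
    · rcases m3 with m3 | m3 <;> rcases k3 with k3 | k3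
      · exact b3 (Or.inl (hs _ _ (hsep _ _ _ _ _ _ h7 k3.1 m3.2)))
      · exact b4 (Or.inl (hs _ _ (hsep _ _ _ _ _ _ h7 k3.1 m3.2)))
      · exact b1 (Or.inl (hs _ _ (hsep _ _ _ _ _ _ h7 k3.1 m3.2)))
      · exact b2 (Or.inl (hs _ _ (hsep _ _ _ _ _ _ h7 k3.1 m3.2)))

end Pool.Agent.P.MP_1f07eb_co.Log
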