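import Mathlib
import Pool.Agent.P.MP_1f07eb_co.LogDual
import Pool.Agent.P.MP_1f07eb_co.LogBase

set_option autoImplicit false

namespace Pool.Agent.P.MP_1f07eb_co.Log

open Classical

abbrev E3 := EuclideanSpace ℝ (Fin 3)

lemma ai_fin {n : ℕ} {V : Finset E3}
    (hV : ∀ S ⊆ V, S.card ≤ 3 + 1 → AffineIndependent ℝ (fun x : S => (x : E3)))
    (hn : n ≤ 4) (p : Fin n → E3) (hp : ∀ i, p i ∈ V) (hinj : Function.Injective p)
    (w : Fin n → ℝ) (h0 : ∑ i, w i = 0) (h1 : ∀ j : Fin 3, ∑ i, w i * p i j = 0) (i : Fin n) :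
    w i = 0 := by
  have hS := hV (Finset.univ.image p) (by
      intro x hx
      obtain ⟨i, _, rfl⟩ := Finset.mem_image.1 hx
      exact hp i)
    (le_trans Finset.card_image_le (by simpa using hn))
  have h2 : AffineIndependent ℝ p := by
    have := hS.comp_embedding (⟨fun i => ⟨p i, Finset.mem_image_of_mem p (Finset.mem_univ i)⟩,
      fun i j h => hinj (congrArg Subtype.val h)⟩ : Fin n ↪ (Finset.univ.image p : Finset E3))
    exact this
  refine affineIndependent_iff.1 h2 Finset.univ w h0 ?_ i (Finset.mem_univ i)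
  ext j
  simpa using h1 j

lemma ai3 {V : Finset E3}
    (hV : ∀ S ⊆ V, S.card ≤ 3 + 1 → AffineIndependent ℝ (fun x : S => (x : E3)))
    {x y z : E3} (hx : x ∈ V) (hy : y ∈ V) (hz : z ∈ V) (h1 : x ≠ y) (h2 : x ≠ z) (h3 : y ≠ z)
    {a b : ℝ} (h : ∀ j : Fin 3, a * (y j - x j) + b * (z j - x j) = 0) : a = 0 ∧ b = 0 := by
  have := ai_fin hV (by norm_num : 3 ≤ 4) ![x, y, z]
    (by intro i; fin_cases i <;> simpa) (by
      intro i j hij
      fin_cases i <;> fin_cases j <;> simp_all [eq_comm]) ![-a - b, a, b]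
    (by simp [Fin.sum_univ_three]; ring) (fun j => by
      simp only [Fin.sum_univ_three, Matrix.cons_val_zero, Matrix.cons_val_one, Matrix.cons_val]
      linear_combination h j)
  exact ⟨by simpa using this 1, by simpa using this 2⟩

lemma ai4 {V : Finset E3}
    (hV : ∀ S ⊆ V, S.card ≤ 3 + 1 → AffineIndependent ℝ (fun x : S => (x : E3)))
    {x y z w : E3} (hx : x ∈ V) (hy : y ∈ V) (hz : z ∈ V) (hw : w ∈ V) (h1 : x ≠ y) (h2 : x ≠ z)
    (h3 : y ≠ z) (h4 : x ≠ w) (h5 : y ≠ w) (h6 : z ≠ w)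
    {a b c : ℝ} (h : ∀ j : Fin 3, a * (y j - x j) + b * (z j - x j) + c * (w j - x j) = 0) :
    c = 0 := by
  have := ai_fin hV (by norm_num : 4 ≤ 4) ![x, y, z, w]
    (by intro i; fin_cases i <;> simpa) (by
      intro i j hij
      fin_cases i <;> fin_cases j <;> simp_all [eq_comm]) ![-a - b - c, a, b, c]
    (by simp [Fin.sum_univ_four]; ring) (fun j => by
      simp only [Fin.sum_univ_four, Matrix.cons_val_zero, Matrix.cons_val_one, Matrix.cons_val]
      linear_combination h j)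
  simpa using this 3

lemma quad_finite (a b c : ℝ) (h : ¬ (a = 0 ∧ b = 0 ∧ c = 0)) :
    {t : ℝ | a + b * t + c * t ^ 2 = 0}.Finite := by
  have hp : (Polynomial.C a + Polynomial.C b * Polynomial.X + Polynomial.C c * Polynomial.X ^ 2 :
      Polynomial ℝ) ≠ 0 := by
    intro h0
    apply h
    have c0 := congrArg (fun p => Polynomial.coeff p 0) h0
    have c1 := congrArg (fun p => Polynomial.coeff p 1) h0
    have c2 := congrArg (fun p => Polynomial.coeff p 2) h0
    simp [Polynomial.coeff_X, Polynomial.coeff_C, Polynomial.coeff_X_pow] at c0 c1 c2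
    exact ⟨c0, c1, c2⟩
  refine (Polynomial.finite_setOfPred_isRoot hp).subset fun t ht => ?_
  simpa [Polynomial.IsRoot] using ht

lemma exists_proj {V : Finset E3}
    (hV : ∀ S ⊆ V, S.card ≤ 3 + 1 → AffineIndependent ℝ (fun x : S => (x : E3))) :
    ∃ t : ℝ, ∀ x ∈ V, ∀ y ∈ V, ∀ z ∈ V, x ≠ y → x ≠ z → y ≠ z →
      dt (fun p : E3 => p 0 - t * p 2) (fun p : E3 => p 1 - t ^ 2 * p 2) x y z ≠ 0 := by
  have hf : ∀ x ∈ V, ∀ y ∈ V, ∀ z ∈ V, {t : ℝ | x ≠ y ∧ x ≠ z ∧ y ≠ z ∧
      dt (fun p : E3 => p 0 - t * p 2) (fun p : E3 => p 1 - t ^ 2 * p 2) x y z = 0}.Finite := by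
    intro x hx y hy z hz
    by_cases hd : x ≠ y ∧ x ≠ z ∧ y ≠ z
    · refine (quad_finite ((y 0 - x 0) * (z 1 - x 1) - (y 1 - x 1) * (z 0 - x 0))
        ((y 1 - x 1) * (z 2 - x 2) - (y 2 - x 2) * (z 1 - x 1))
        ((y 2 - x 2) * (z 0 - x 0) - (y 0 - x 0) * (z 2 - x 2)) ?_).subset fun t ht => ?_
      · rintro ⟨a1, a2, a3⟩
        have b0 := (ai3 hV hx hy hz hd.1 hd.2.1 hd.2.2 (a := z 0 - x 0) (b := -(y 0 - x 0))
          (fun j => by fin_cases j <;> simp <;> linarith)).2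
        have b1 := (ai3 hV hx hy hz hd.1 hd.2.1 hd.2.2 (a := z 1 - x 1) (b := -(y 1 - x 1))
          (fun j => by fin_cases j <;> simp <;> linarith)).2
        have b2 := (ai3 hV hx hy hz hd.1 hd.2.1 hd.2.2 (a := z 2 - x 2) (b := -(y 2 - x 2))
          (fun j => by fin_cases j <;> simp <;> linarith)).2
        apply hd.1
        ext j
        fin_cases j <;> simp <;> linarith
      · have := ht.2.2.2
        unfold dt at this
        simp only [Set.mem_ofPred_eq]
        linear_combination this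
    · refine Set.finite_empty.subset fun t ht => hd ⟨ht.1, ht.2.1, ht.2.2.1⟩
  have hfin := V.finite_toSet.biUnion fun x hx => V.finite_toSet.biUnion fun y hy =>
    V.finite_toSet.biUnion fun z hz => hf x hx y hy z hz
  obtain ⟨t, ht⟩ := hfin.exists_notMem
  refine ⟨t, fun x hx y hy z hz h1 h2 h3 h0 => ht ?_⟩
  simp only [Set.mem_iUnion]
  exact ⟨x, hx, y, hy, z, hz, h1, h2, h3, h0⟩

lemma sep_hull (t : ℝ) (e f : Finset E3) (u v c c' : ℝ) (hc : c < c')
    (he : ∀ p ∈ e, p 2 ≤ u * (p 0 - t * p 2) + v * (p 1 - t ^ 2 * p 2) + c)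
    (hf : ∀ p ∈ f, u * (p 0 - t * p 2) + v * (p 1 - t ^ 2 * p 2) + c' ≤ p 2) :
    Disjoint (convexHull ℝ (e : Set E3)) (convexHull ℝ (f : Set E3)) := by
  have hl : IsLinearMap ℝ fun p : E3 => p 2 - u * (p 0 - t * p 2) - v * (p 1 - t ^ 2 * p 2) :=
    ⟨fun x y => by simp only [PiLp.add_apply]; ring,
      fun a x => by simp only [PiLp.smul_apply, smul_eq_mul]; ring⟩
  have h1 := convexHull_min (s := (e : Set E3)) (fun p hp => by
    have := he p hp
    show p 2 - u * (p 0 - t * p 2) - v * (p 1 - t ^ 2 * p 2) ≤ c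
    linarith) (convex_halfSpace_le hl c)
  have h2 := convexHull_min (s := (f : Set E3)) (fun p hp => by
    have := hf p hp
    show c' ≤ p 2 - u * (p 0 - t * p 2) - v * (p 1 - t ^ 2 * p 2)
    linarith) (convex_halfSpace_ge hl c')
  rw [Set.disjoint_left]
  intro x hx1 hx2
  have a1 : x 2 - u * (x 0 - t * x 2) - v * (x 1 - t ^ 2 * x 2) ≤ c := h1 hx1
  have a2 : c' ≤ x 2 - u * (x 0 - t * x 2) - v * (x 1 - t ^ 2 * x 2) := h2 hx2
  linarith

lemma main_nat (k L : ℕ) (hL : 1 ≤ L) (V : Finset E3)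
    (hV : ∀ S ⊆ V, S.card ≤ 3 + 1 → AffineIndependent ℝ (fun x : S => (x : E3)))
    (E : Finset (Finset E3)) (hE : ∀ e ∈ E, e ⊆ V ∧ e.card = 3) (hc : E.card ≤ 2 ^ L)
    (hF : Free (fun e f : Finset E3 =>
      Disjoint (convexHull ℝ (e : Set E3)) (convexHull ℝ (f : Set E3))) (k + 2) E) :
    E.card ≤ cst k * L ^ (5 * k) * V.card ^ 2 := by
  obtain ⟨t, G3⟩ := exists_proj hV
  obtain ⟨β, lt, hD⟩ := dual_data (Z := fun p : E3 => p 2) G3 (by
      intro x hx y hy z hz w hw h1 h2 h3 h4 h5 h6 u v c ex ey ez ew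
      apply G3 x hx y hy z hz h1 h2 h3
      simp only at ex ey ez ew
      set X := fun p : E3 => p 0 - t * p 2 with hX
      set Y := fun p : E3 => p 1 - t ^ 2 * p 2 with hY
      have kX : dt X Y x z w * (X y - X x) + dt X Y x w y * (X z - X x) +
          dt X Y x y z * (X w - X x) = 0 := by unfold dt; ring
      have kY : dt X Y x z w * (Y y - Y x) + dt X Y x w y * (Y z - Y x) +
          dt X Y x y z * (Y w - Y x) = 0 := by unfold dt; ring
      have kZ : dt X Y x z w * (y 2 - x 2) + dt X Y x w y * (z 2 - x 2) +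
          dt X Y x y z * (w 2 - x 2) = 0 := by
        simp only [hX, hY] at kX kY ⊢
        linear_combination u * kX + v * kY +
          dt (fun p : E3 => p 0 - t * p 2) (fun p : E3 => p 1 - t ^ 2 * p 2) x z w * (ey - ex) +
          dt (fun p : E3 => p 0 - t * p 2) (fun p : E3 => p 1 - t ^ 2 * p 2) x w y * (ez - ex) +
          dt (fun p : E3 => p 0 - t * p 2) (fun p : E3 => p 1 - t ^ 2 * p 2) x y z * (ew - ex)
      refine ai4 hV hx hy hz hw h1 h2 h3 h4 h5 h6 (a := dt X Y x z w) (b := dt X Y x w y) ?_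
      intro j
      fin_cases j
      · simp only [hX] at kX
        simp only [Fin.zero_eta]
        linear_combination kX + t * kZ
      · simp only [hY] at kY
        simp only [Fin.mk_one]
        linear_combination kY + t ^ 2 * kZ
      · exact kZ)
    (fun e f : Finset E3 => Disjoint (convexHull ℝ (e : Set E3)) (convexHull ℝ (f : Set E3)))
    (fun e f h => h.symm)
    (by
      rintro e ⟨x, hx⟩ h
      have hx' : x ∈ convexHull ℝ (e : Set E3) := subset_convexHull ℝ _ hx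
      exact Set.disjoint_left.1 h hx' hx')
    (sep_hull t) E hE (by
      intro F hF hfree
      by_contra hbig
      obtain ⟨e, he, f, hf, hd⟩ := two_disjoint_sh 3 (by norm_num) V hV F
        (fun e he => hE e (hF he)) (lt_of_le_of_lt (le_of_eq (biU_card _ _ _ _)) (Nat.lt_of_not_le hbig))
      have hne : e ≠ f := by
        rintro rfl
        obtain ⟨x, hx⟩ : e.Nonempty := Finset.card_pos.1 (by rw [(hE e (hF he)).2]; norm_num)
        have hx' : x ∈ convexHull ℝ (e : Set E3) := subset_convexHull ℝ _ hx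
        exact Set.disjoint_left.1 hd hx' hx'
      refine hfree ⟨{e, f}, ?_, Finset.card_pair hne, ?_⟩
      · intro x hx
        simp only [Finset.mem_insert, Finset.mem_singleton] at hx
        rcases hx with rfl | rfl <;> assumption
      · rw [Finset.coe_pair]
        exact Set.pairwise_pair.2 fun _ => ⟨hd, hd.symm⟩)
  refine le_trans (rec_main hD L hL k E (Finset.Subset.refl _) hc hF) (Nat.mul_le_mul_left _ ?_)
  rw [sq V.card, ← Finset.card_product]
  apply Finset.card_le_card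
  intro c hc
  simp only [Finset.mem_biUnion] at hc
  obtain ⟨e, he, hc⟩ := hc
  obtain ⟨h1, h2, _⟩ := mem_hkey.1 hc
  exact Finset.mem_product.2 ⟨(hE e he).1 h1, (hE e he).1 h2⟩

lemma main_real (k : ℕ) (V : Finset E3)
    (hV : ∀ S ⊆ V, S.card ≤ 3 + 1 → AffineIndependent ℝ (fun x : S => (x : E3)))
    (E : Finset (Finset E3)) (hE : ∀ e ∈ E, e ⊆ V ∧ e.card = 3)
    (hF : Free (fun e f : Finset E3 =>
      Disjoint (convexHull ℝ (e : Set E3)) (convexHull ℝ (f : Set E3))) (k + 2) E) :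
    (E.card : ℝ) ≤ (cst k * 9 ^ (5 * k) : ℝ) * (V.card : ℝ) ^ 2 *
      Real.log (V.card : ℝ) ^ (5 * k) := by
  rcases E.eq_empty_or_nonempty with rfl | ⟨e, he⟩
  · have := Real.log_natCast_nonneg V.card
    simp only [Finset.card_empty, Nat.cast_zero]
    positivity
  have hn : 3 ≤ V.card := by rw [← (hE e he).2]; exact Finset.card_le_card (hE e he).1
  set n := V.card with hn'
  have hc : E.card ≤ 2 ^ (3 * (Nat.log 2 n + 1)) := by
    have h1 : E ⊆ V.powersetCard 3 := fun e he => Finset.mem_powersetCard.2 (hE e he)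
    have h2 := Finset.card_le_card h1
    rw [Finset.card_powersetCard] at h2
    have h3 : n < 2 ^ (Nat.log 2 n + 1) := Nat.lt_pow_succ_log_self (by norm_num) n
    calc E.card ≤ n.choose 3 := h2
      _ ≤ n ^ 3 := Nat.choose_le_pow n 3
      _ ≤ (2 ^ (Nat.log 2 n + 1)) ^ 3 := Nat.pow_le_pow_left h3.le 3
      _ = _ := by rw [← pow_mul, mul_comm]
  have h1 := main_nat k _ (by omega) V hV E hE hc hF
  have h2 : ((3 * (Nat.log 2 n + 1) : ℕ) : ℝ) ≤ 9 * Real.log (n : ℝ) := by
    have a1 : (2 : ℝ) ^ Nat.log 2 n ≤ n := by exact_mod_cast Nat.pow_log_le_self 2 (by omega)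
    have a2 := Real.log_le_log (by positivity) a1
    rw [Real.log_pow] at a2
    have a3 := Real.log_two_gt_d9
    have a4 : (1 : ℝ) ≤ Real.log n := by
      rw [Real.le_log_iff_exp_le (by exact_mod_cast (by omega : 0 < n))]
      have := Real.exp_one_lt_d9
      have b : (3 : ℝ) ≤ n := by exact_mod_cast hn
      linarith
    have a5 : (0 : ℝ) ≤ Nat.log 2 n := Nat.cast_nonneg _
    push_cast
    nlinarith
  have h3 : (E.card : ℝ) ≤ cst k * ((3 * (Nat.log 2 n + 1) : ℕ) : ℝ) ^ (5 * k) * (n : ℝ) ^ 2 := by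
    exact_mod_cast h1
  calc (E.card : ℝ) ≤ _ := h3
    _ ≤ cst k * (9 * Real.log (n : ℝ)) ^ (5 * k) * (n : ℝ) ^ 2 := by gcongr
    _ = _ := by rw [mul_pow]; ring

end Pool.Agent.P.MP_1f07eb_co.Log
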