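import Mathlib
import Pool.Agent.P.MP_1f07eb_co.Geom

set_option autoImplicit false

namespace Pool.Agent.P.MP_1f07eb_co.Three

open Finset

abbrev Pt := EuclideanSpace ℝ (Fin 3)

abbrev hull (e : Finset Pt) : Set Pt := convexHull ℝ (e : Set Pt)

def GP (V : Finset Pt) : Prop :=
  ∀ S ⊆ V, S.card ≤ 3 + 1 → AffineIndependent ℝ (fun x : S => (x : Pt))

lemma aff_zero {V : Finset Pt} (hV : GP V) {S : Finset Pt} (hS : S ⊆ V) (hc : S.card = 3 + 1)
    (g : Pt →ᵃ[ℝ] ℝ) (h : ∀ x ∈ S, g x = 0) (y : Pt) : g y = 0 := by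
  have : g = 0 := by
    apply AffineMap.ext_on (span_top _ hc (hV S hS hc.le))
    rintro _ ⟨⟨x, hx⟩, rfl⟩
    simpa using h x hx
  rw [this]
  simp

lemma aff_dec (g : Pt →ᵃ[ℝ] ℝ) (x : Pt) : g x = g.linear x + g 0 := by
  have := g.map_vadd 0 x
  simpa using this

lemma aff_sum (g : Pt →ᵃ[ℝ] ℝ) (T : Finset Pt) (w : Pt → ℝ) (hw : ∑ v ∈ T, w v = 1) :
    g (∑ v ∈ T, w v • v) = ∑ v ∈ T, w v * g v := by
  rw [aff_dec, map_sum]
  have : ∀ v ∈ T, w v * g v = g.linear (w v • v) + w v * g 0 := by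
    intro v _
    rw [aff_dec g v, map_smul, smul_eq_mul]
    ring
  rw [Finset.sum_congr rfl this, Finset.sum_add_distrib, ← Finset.sum_mul, hw, one_mul]

lemma aff_two (g : Pt →ᵃ[ℝ] ℝ) (p q : Pt) (h : ℝ) :
    g ((1 - h) • p + h • q) = (1 - h) * g p + h * g q := by
  rw [aff_dec, map_add, map_smul, map_smul, aff_dec g p, aff_dec g q, smul_eq_mul, smul_eq_mul]
  ring

lemma mem_hull_of {ι : Type} [Fintype ι] (a : ι → Pt) (w : ι → ℝ) (h0 : ∀ i, 0 ≤ w i)
    (h1 : ∑ i, w i = 1) (u : Finset Pt) (hu : ∀ i, w i ≠ 0 → a i ∈ u) :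
    ∑ i, w i • a i ∈ hull u := by
  classical
  have e1 : ∑ i ∈ univ.filter (fun i => w i ≠ 0), w i • a i = ∑ i, w i • a i :=
    Finset.sum_filter_of_ne (fun i _ h h' => h (by rw [h', zero_smul]))
  have e2 : ∑ i ∈ univ.filter (fun i => w i ≠ 0), w i = 1 := by
    rw [Finset.sum_filter_of_ne (fun i _ h => h)]
    exact h1
  rw [← e1]
  exact (convex_convexHull ℝ (u : Set Pt)).sum_mem (fun i _ => h0 i) e2
    (fun i hi => subset_convexHull ℝ (u : Set Pt) (hu i (mem_filter.1 hi).2))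

/-- Two meeting triangles in 3-space: an edge of one meets the other. -/
lemma edge_lemma (s t : Finset Pt) (hs : s.card = 3) (ht : t.card = 3)
    (hm : ¬ Disjoint (hull s) (hull t)) :
    (∃ v ∈ s, ¬ Disjoint (hull (s.erase v)) (hull t)) ∨
      (∃ v ∈ t, ¬ Disjoint (hull (t.erase v)) (hull s)) := by
  classical
  obtain ⟨x, hxs, hxt⟩ := Set.not_disjoint_iff.1 hm
  obtain ⟨l, l0, l1, l2⟩ := Finset.mem_convexHull'.1 hxs
  obtain ⟨m, m0, m1, m2⟩ := Finset.mem_convexHull'.1 hxt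
  let L : ((s ⊕ t) → ℝ) →ₗ[ℝ] (ℝ × ℝ × Pt) :=
    { toFun := fun c => (∑ i : s, c (Sum.inl i), ∑ j : t, c (Sum.inr j),
        ∑ i : s, c (Sum.inl i) • (i : Pt) - ∑ j : t, c (Sum.inr j) • (j : Pt))
      map_add' := by
        intro c d
        simp only [Pi.add_apply, Finset.sum_add_distrib, add_smul, Prod.mk_add_mk]
        congr 2
        abel
      map_smul' := by
        intro r c
        simp only [Pi.smul_apply, smul_eq_mul, RingHom.id_apply, Prod.smul_mk, Finset.mul_sum,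
          smul_sub, Finset.smul_sum, mul_smul] }
  have hker : LinearMap.ker L ≠ ⊥ := by
    apply LinearMap.ker_ne_bot_of_finrank_lt
    simp [Module.finrank_prod, hs, ht]
  obtain ⟨c, hc, hc0⟩ := Submodule.exists_mem_ne_zero_of_ne_bot hker
  have hc' : (∑ i : s, c (Sum.inl i), ∑ j : t, c (Sum.inr j),
        ∑ i : s, c (Sum.inl i) • (i : Pt) - ∑ j : t, c (Sum.inr j) • (j : Pt)) =
        ((0 : ℝ), (0 : ℝ), (0 : Pt)) := LinearMap.mem_ker.1 hc
  simp only [Prod.mk.injEq] at hc'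
  obtain ⟨c1, c2, c3⟩ := hc'
  have hneg : (univ.filter (fun i => c i < 0)).Nonempty := by
    by_contra h
    have hall : ∀ i, 0 ≤ c i := by
      intro i
      by_contra h'
      exact h ⟨i, mem_filter.2 ⟨mem_univ _, not_le.1 h'⟩⟩
    apply hc0
    funext i
    rcases i with i | j
    · exact (Finset.sum_eq_zero_iff_of_nonneg (fun i _ => hall (Sum.inl i))).1 c1 i (mem_univ _)
    · exact (Finset.sum_eq_zero_iff_of_nonneg (fun j _ => hall (Sum.inr j))).1 c2 j (mem_univ _)
  let w : (s ⊕ t) → ℝ := fun i => match i with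
    | Sum.inl i => l i
    | Sum.inr j => m j
  have w0 : ∀ i, 0 ≤ w i := by
    intro i
    rcases i with i | j
    · exact l0 i i.2
    · exact m0 j j.2
  obtain ⟨k, hk, hmin⟩ := Finset.exists_min_image _ (fun i => w i / (- c i)) hneg
  have hk' : 0 < - c k := by linarith [(mem_filter.1 hk).2]
  set τ := w k / (- c k) with hτ
  have τ0 : 0 ≤ τ := div_nonneg (w0 k) hk'.le
  let u : (s ⊕ t) → ℝ := fun i => w i + τ * c i
  have u0 : ∀ i, 0 ≤ u i := by
    intro i
    by_cases hi : c i < 0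
    · have h1 := hmin i (mem_filter.2 ⟨mem_univ _, hi⟩)
      have h2 : 0 < - c i := by linarith
      rw [le_div_iff₀ h2] at h1
      simp only [u]
      linarith
    · exact add_nonneg (w0 i) (mul_nonneg τ0 (not_lt.1 hi))
  have uk : u k = 0 := by
    have h1 : τ * (- c k) = w k := by rw [hτ]; exact div_mul_cancel₀ _ hk'.ne'
    simp only [u]
    linarith
  have us : ∑ i : s, u (Sum.inl i) = 1 := by
    simp only [u, w, Finset.sum_add_distrib, ← Finset.mul_sum, c1, mul_zero, add_zero]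
    rw [Finset.sum_coe_sort s l, l1]
  have ut : ∑ j : t, u (Sum.inr j) = 1 := by
    simp only [u, w, Finset.sum_add_distrib, ← Finset.mul_sum, c2, mul_zero, add_zero]
    rw [Finset.sum_coe_sort t m, m1]
  have ue : ∑ i : s, u (Sum.inl i) • (i : Pt) = ∑ j : t, u (Sum.inr j) • (j : Pt) := by
    simp only [u, w, Finset.sum_add_distrib, add_smul, mul_smul, ← Finset.smul_sum]
    rw [Finset.sum_coe_sort s (fun x => l x • x), Finset.sum_coe_sort t (fun x => m x • x), l2, m2,
      sub_eq_zero.1 c3]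
  have ms : ∀ z : Finset Pt, (∀ i : s, u (Sum.inl i) ≠ 0 → (i : Pt) ∈ z) →
      ∑ i : s, u (Sum.inl i) • (i : Pt) ∈ hull z := fun z hz =>
    mem_hull_of (fun i : s => (i : Pt)) (fun i : s => u (Sum.inl i))
      (fun i => u0 (Sum.inl i)) us z hz
  have mt : ∀ z : Finset Pt, (∀ i : t, u (Sum.inr i) ≠ 0 → (i : Pt) ∈ z) →
      ∑ i : s, u (Sum.inl i) • (i : Pt) ∈ hull z := fun z hz => by
    rw [ue]
    exact mem_hull_of (fun i : t => (i : Pt)) (fun i : t => u (Sum.inr i))
      (fun i => u0 (Sum.inr i)) ut z hz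
  rcases k with k | k
  · left
    refine ⟨k, k.2, Set.not_disjoint_iff.2 ⟨_, ms _ (fun i hi => mem_erase.2 ⟨?_, i.2⟩),
      mt _ (fun i _ => i.2)⟩⟩
    intro h
    exact hi (by rw [Subtype.ext h]; exact uk)
  · right
    refine ⟨k, k.2, Set.not_disjoint_iff.2 ⟨_, mt _ (fun i hi => mem_erase.2 ⟨?_, i.2⟩),
      ms _ (fun i _ => i.2)⟩⟩
    intro h
    exact hi (by rw [Subtype.ext h]; exact uk)

/-- The extreme member of the support of a stress sees a member strictly on one side. -/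
lemma top_lemma (V : Finset Pt) (G : Finset (Finset Pt)) (hG : ∀ e ∈ G, e ⊆ V ∧ e.card = 3)
    (hbig : V.card.choose 2 < G.card) (g : Finset Pt → Pt → ℝ) (h : Finset Pt → ℝ)
    (h0 : ∀ s ∈ G, ∀ x ∈ s, g s x = 0)
    (hstar : ∀ s ∈ G, ∀ T ∈ G, s ≠ T → (∀ x ∈ T, 0 ≤ g s x) → h s < h T) :
    ∃ s ∈ G, ∃ f ∈ G, ∀ x ∈ f, g s x < 0 := by
  classical
  obtain ⟨Z, hZ0, hZ⟩ := exists_cycle 2 V G hG hbig
  have hne : (univ.filter (fun e : G => Z e ≠ 0)).Nonempty := by
    by_contra hh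
    apply hZ0
    funext e
    by_contra h'
    exact hh ⟨e, mem_filter.2 ⟨mem_univ _, h'⟩⟩
  obtain ⟨s, hs, hmax⟩ := Finset.exists_max_image _ (fun e : G => h e.1) hne
  have hs' : Z s ≠ 0 := (mem_filter.1 hs).2
  let w : Pt → ℚ := fun x => if 0 ≤ g s.1 x then 1 else 0
  have hR : ∑ e : G, Z e * ∏ x ∈ e.1, (- w x) ≠ 0 := by
    rw [Finset.sum_eq_single s]
    · refine mul_ne_zero hs' (Finset.prod_ne_zero_iff.2 fun x hx => ?_)
      simp [w, h0 s.1 s.2 x hx]
    · intro e _ hes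
      by_contra hc
      have h1 : Z e ≠ 0 := left_ne_zero_of_mul hc
      have h2 := Finset.prod_ne_zero_iff.1 (right_ne_zero_of_mul hc)
      have h3 : h s.1 < h e.1 := by
        refine hstar s.1 s.2 e.1 e.2 (fun hh => hes (Subtype.ext hh.symm)) (fun x hx => ?_)
        by_contra h4
        exact h2 x hx (by simp [w, h4])
      exact absurd (hmax e (mem_filter.2 ⟨mem_univ _, h1⟩)) (not_le.2 h3)
    · intro hh; exact absurd (Finset.mem_univ _) hh
  rw [← hZ w] at hR
  obtain ⟨f, -, hf⟩ := Finset.exists_ne_zero_of_sum_ne_zero hR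
  have hf' := Finset.prod_ne_zero_iff.1 (right_ne_zero_of_mul hf)
  refine ⟨s.1, s.2, f.1, f.2, fun x hx => ?_⟩
  by_contra h4
  exact hf' x hx (by simp [w, not_lt.1 h4])

/-- Data of a triangle crossed by the segment pq. -/
lemma cross_data {V : Finset Pt} (hV : GP V) {p q : Pt} (hp : p ∈ V) (hq : q ∈ V) (hpq : p ≠ q)
    {T : Finset Pt} (hT : T ⊆ V) (hc : T.card = 3) (hpT : p ∉ T) (hqT : q ∉ T)
    (hm : ¬ Disjoint (hull {p, q}) (hull T)) :
    ∃ (g : Pt →ᵃ[ℝ] ℝ) (h : ℝ), (∀ x ∈ T, g x = 0) ∧ g q = 1 ∧ g p < 0 ∧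
      (1 - h) * g p + h = 0 ∧ ∃ w : Pt → ℝ, (∀ v ∈ T, 0 < w v) ∧ ∑ v ∈ T, w v = 1 ∧
        ∑ v ∈ T, w v • v = (1 - h) • p + h • q := by
  classical
  obtain ⟨x, hx1, hx2⟩ := Set.not_disjoint_iff.1 hm
  obtain ⟨w, w0, w1, w2⟩ := Finset.mem_convexHull'.1 hx2
  have hx1' : x ∈ segment ℝ p q := by
    rw [← convexHull_pair]
    simpa [hull] using hx1
  obtain ⟨a, h, a0, h0, ah, hx⟩ := hx1'
  have ha : a = 1 - h := by linarith
  subst ha
  have cq : (insert q T).card = 3 + 1 := by rw [card_insert_of_notMem hqT, hc]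
  have cp : (insert p T).card = 3 + 1 := by rw [card_insert_of_notMem hpT, hc]
  obtain ⟨g, hg⟩ := exists_affine _ cq (hV _ (insert_subset hq hT) cq.le)
    (fun y => if y ∈ T then 0 else 1)
  have gT : ∀ y ∈ T, g y = 0 := fun y hy => by rw [hg y (mem_insert_of_mem hy), if_pos hy]
  have gq : g q = 1 := by rw [hg q (mem_insert_self _ _), if_neg hqT]
  have gp : g p ≠ 0 := by
    intro h'
    have := aff_zero hV (insert_subset hp hT) cp g (fun y hy => by
      rcases mem_insert.1 hy with rfl | hy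
      · exact h'
      · exact gT y hy) q
    rw [gq] at this
    exact one_ne_zero this
  have gx : (1 - h) * g p + h = 0 := by
    have e1 := aff_two g p q h
    rw [hx, ← w2, aff_sum g T w w1, gq, mul_one,
      Finset.sum_eq_zero (fun v hv => by rw [gT v hv, mul_zero])] at e1
    exact e1.symm
  have hh : h ≠ 0 := by
    rintro rfl
    apply gp
    linarith
  have gp' : g p < 0 := by
    by_contra h'
    have : 0 ≤ (1 - h) * g p := mul_nonneg a0 (not_lt.1 h')
    exact hh (by linarith)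
  refine ⟨g, h, gT, gq, gp', gx, w, fun v hv => lt_of_le_of_ne (w0 v hv) ?_, w1, by rw [w2, hx]⟩
  obtain ⟨k, hk⟩ := exists_affine _ cp (hV _ (insert_subset hp hT) cp.le)
    (fun y => if y = v then 1 else 0)
  have kv : k v = 1 := by rw [hk v (mem_insert_of_mem hv), if_pos rfl]
  have kp : k p = 0 := by
    rw [hk p (mem_insert_self _ _), if_neg]
    rintro rfl
    exact hpT hv
  have kT : ∀ y ∈ T, y ≠ v → k y = 0 := fun y hy hyv => by
    rw [hk y (mem_insert_of_mem hy), if_neg hyv]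
  have kq : k q ≠ 0 := by
    intro h'
    have c4 : (insert p (insert q (T.erase v))).card = 3 + 1 := by
      rw [card_insert_of_notMem, card_insert_of_notMem, card_erase_of_mem hv, hc]
      · exact fun h1 => hqT (mem_of_mem_erase h1)
      · intro h1
        rcases mem_insert.1 h1 with h1 | h1
        · exact hpq h1
        · exact hpT (mem_of_mem_erase h1)
    have := aff_zero hV (insert_subset hp (insert_subset hq ((erase_subset _ _).trans hT))) c4 k
      (fun y hy => by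
        rcases mem_insert.1 hy with rfl | hy
        · exact kp
        · rcases mem_insert.1 hy with rfl | hy
          · exact h'
          · exact kT y (mem_of_mem_erase hy) (ne_of_mem_erase hy)) v
    rw [kv] at this
    exact one_ne_zero this
  have e1 := aff_two k p q h
  rw [hx, ← w2, aff_sum k T w w1, kp, mul_zero, zero_add, Finset.sum_eq_single v
    (fun y hy hyv => by rw [kT y hy hyv, mul_zero]) (fun h' => absurd hv h'), kv, mul_one] at e1
  rw [e1]
  exact (mul_ne_zero hh kq).symm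

lemma disj_zero (g : Pt →ᵃ[ℝ] ℝ) (e s : Finset Pt) (he : ∀ x ∈ e, 0 < g x)
    (hs : ∀ x ∈ s, g x = 0) : Disjoint (hull e) (hull s) := by
  have h1 : hull e ⊆ g ⁻¹' Set.Ioi 0 :=
    convexHull_min (fun x hx => he x hx) ((convex_Ioi (0 : ℝ)).affine_preimage g)
  have h2 : hull s ⊆ g ⁻¹' Set.Iic 0 :=
    convexHull_min (fun x hx => (hs x hx).le) ((convex_Iic (0 : ℝ)).affine_preimage g)
  rw [Set.disjoint_left]
  intro x hx1 hx2
  have a1 : 0 < g x := h1 hx1
  have a2 : g x ≤ 0 := h2 hx2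
  linarith

def NoThree (E : Finset (Finset Pt)) : Prop :=
  ∀ e ∈ E, ∀ f ∈ E, ∀ g ∈ E, Disjoint (hull e) (hull f) → Disjoint (hull e) (hull g) →
    Disjoint (hull f) (hull g) → False

/-- Triangles crossed by a common segment. -/
lemma segment_bound {V : Finset Pt} (hV : GP V) {p q : Pt} (hp : p ∈ V) (hq : q ∈ V)
    (hpq : p ≠ q) (F : Finset (Finset Pt)) (hF : ∀ e ∈ F, e ⊆ V ∧ e.card = 3)
    (hav : ∀ e ∈ F, p ∉ e ∧ q ∉ e ∧ ¬ Disjoint (hull {p, q}) (hull e)) (hno : NoThree F) :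
    F.card ≤ 2 * V.card.choose 2 := by
  classical
  have hex : ∀ T : Finset Pt, ∃ (g : Pt →ᵃ[ℝ] ℝ) (h : ℝ), T ∈ F → ((∀ x ∈ T, g x = 0) ∧ g q = 1 ∧
      g p < 0 ∧ (1 - h) * g p + h = 0 ∧ ∃ w : Pt → ℝ, (∀ v ∈ T, 0 < w v) ∧ ∑ v ∈ T, w v = 1 ∧
        ∑ v ∈ T, w v • v = (1 - h) • p + h • q) := by
    intro T
    by_cases hT : T ∈ F
    · obtain ⟨g, h, hh⟩ := cross_data hV hp hq hpq (hF T hT).1 (hF T hT).2 (hav T hT).1
        (hav T hT).2.1 (hav T hT).2.2
      exact ⟨g, h, fun _ => hh⟩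
    · exact ⟨0, 0, fun h => absurd h hT⟩
  choose g h hg using hex
  have key : ∀ s ∈ F, ∀ T ∈ F, s ≠ T → ∃ w : Pt → ℝ, (∀ v ∈ T, 0 < w v) ∧
      ∑ v ∈ T, w v * g s v = (h T - h s) * (1 - g s p) ∧ 0 < 1 - g s p ∧
      ∃ v ∈ T, g s v ≠ 0 := by
    intro s hs T hT hne
    obtain ⟨s0, sq, sp, sh, -⟩ := hg s hs
    obtain ⟨-, -, -, -, w, w0, w1, w2⟩ := hg T hT
    refine ⟨w, w0, ?_, by linarith, ?_⟩
    · rw [← aff_sum (g s) T w w1, w2, aff_two, sq]
      linarith
    · obtain ⟨v, hv, hvs⟩ : ∃ v ∈ T, v ∉ s := by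
        by_contra h'
        push Not at h'
        exact hne (Finset.eq_of_subset_of_card_le h' (by rw [(hF s hs).2, (hF T hT).2])).symm
      refine ⟨v, hv, fun h' => ?_⟩
      have c4 : (insert v s).card = 3 + 1 := by rw [card_insert_of_notMem hvs, (hF s hs).2]
      have := aff_zero hV (insert_subset ((hF T hT).1 hv) (hF s hs).1) c4 (g s) (fun y hy => by
        rcases mem_insert.1 hy with rfl | hy
        · exact h'
        · exact s0 y hy) q
      rw [sq] at this
      exact one_ne_zero this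
  have up : ∀ s ∈ F, ∀ T ∈ F, s ≠ T → (∀ x ∈ T, 0 ≤ g s x) → h s < h T := by
    intro s hs T hT hne hx
    obtain ⟨w, w0, w1, w2, v, hv, hv'⟩ := key s hs T hT hne
    have : 0 < ∑ v ∈ T, w v * g s v :=
      Finset.sum_pos' (fun y hy => mul_nonneg (w0 y hy).le (hx y hy))
        ⟨v, hv, mul_pos (w0 v hv) (lt_of_le_of_ne (hx v hv) hv'.symm)⟩
    rw [w1] at this
    have := (mul_pos_iff_of_pos_right w2).1 this
    linarith
  have dn : ∀ s ∈ F, ∀ T ∈ F, s ≠ T → (∀ x ∈ T, 0 ≤ - g s x) → - h s < - h T := by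
    intro s hs T hT hne hx
    obtain ⟨w, w0, w1, w2, v, hv, hv'⟩ := key s hs T hT hne
    have : 0 < ∑ v ∈ T, w v * (- g s v) :=
      Finset.sum_pos' (fun y hy => mul_nonneg (w0 y hy).le (hx y hy))
        ⟨v, hv, mul_pos (w0 v hv) (lt_of_le_of_ne (hx v hv) (neg_ne_zero.2 hv').symm)⟩
    simp only [mul_neg, Finset.sum_neg_distrib] at this
    rw [w1, ← neg_mul] at this
    have := (mul_pos_iff_of_pos_right w2).1 this
    linarith
  let pk : Finset Pt → Prop := fun T => ∃ e ∈ F, ∀ x ∈ e, 0 < g T x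
  have hP : (F.filter (fun T => ¬ pk T)).card ≤ V.card.choose 2 := by
    by_contra hbig
    obtain ⟨s, hs, f, hf, hsf⟩ := top_lemma V _ (fun e he => hF e (mem_filter.1 he).1)
      (not_le.1 hbig) (fun s x => - g s x) (fun s => - h s)
      (fun s hs x hx => by simp [(hg s (mem_filter.1 hs).1).1 x hx])
      (fun s hs T hT => dn s (mem_filter.1 hs).1 T (mem_filter.1 hT).1)
    exact (mem_filter.1 hs).2 ⟨f, (mem_filter.1 hf).1, fun x hx => by linarith [hsf x hx]⟩
  have hN : (F.filter pk).card ≤ V.card.choose 2 := by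
    by_contra hbig
    obtain ⟨s, hs, f, hf, hsf⟩ := top_lemma V _ (fun e he => hF e (mem_filter.1 he).1)
      (not_le.1 hbig) (fun s x => g s x) h
      (fun s hs x hx => (hg s (mem_filter.1 hs).1).1 x hx)
      (fun s hs T hT => up s (mem_filter.1 hs).1 T (mem_filter.1 hT).1)
    obtain ⟨hsF, e, he, hes⟩ := mem_filter.1 hs
    have s0 := (hg s hsF).1
    refine hno e he f (mem_filter.1 hf).1 s hsF (disjoint_of_affine (g s) e f hes hsf)
      (disj_zero (g s) e s hes s0) (disj_zero (- g s) f s (fun x hx => ?_) (fun x hx => ?_))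
    · simpa using hsf x hx
    · simpa using s0 x hx
  have := Finset.card_filter_add_card_filter_not (s := F) pk
  omega

lemma star_bound (V : Finset Pt) (E : Finset (Finset Pt)) (hE : ∀ e ∈ E, e ⊆ V ∧ e.card = 3)
    (v : Pt) : (E.filter (fun e => v ∈ e)).card ≤ V.card.choose 2 := by
  classical
  rw [← Finset.card_powersetCard]
  refine Finset.card_le_card_of_injOn (fun e => e.erase v) (fun e he => ?_) (fun e he f hf h => ?_)
  · obtain ⟨he, hv⟩ := mem_filter.1 (mem_coe.1 he)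
    refine mem_coe.2 (mem_powersetCard.2 ⟨(erase_subset _ _).trans (hE e he).1, ?_⟩)
    rw [card_erase_of_mem hv, (hE e he).2]
  · have h' : e.erase v = f.erase v := h
    rw [← insert_erase (mem_filter.1 (mem_coe.1 he)).2, h',
      insert_erase (mem_filter.1 (mem_coe.1 hf)).2]

theorem three_bound (V : Finset Pt) (hV : GP V) (E : Finset (Finset Pt))
    (hE : ∀ e ∈ E, e ⊆ V ∧ e.card = 3) (hno : NoThree E) :
    E.card ≤ 16 * V.card.choose 2 := by
  classical
  set B := V.card.choose 2 with hB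
  let R : Finset Pt → Finset Pt → Prop := fun T U =>
    Disjoint T U ∧ ∃ v ∈ T, ¬ Disjoint (hull (T.erase v)) (hull U)
  have hR : ∀ T ∈ E, (E.filter (fun U => R T U)).card ≤ 6 * B := by
    intro T hT
    have hsub : E.filter (fun U => R T U) ⊆ T.biUnion (fun v => E.filter (fun U =>
        Disjoint T U ∧ ¬ Disjoint (hull (T.erase v)) (hull U))) := by
      intro U hU
      obtain ⟨hU, h1, v, hv, h2⟩ := mem_filter.1 hU
      exact mem_biUnion.2 ⟨v, hv, mem_filter.2 ⟨hU, h1, h2⟩⟩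
    refine (card_le_card hsub).trans ((card_biUnion_le_card_mul _ _ (2 * B) ?_).trans ?_)
    · intro v hv
      obtain ⟨p, q, hpq, hh⟩ := card_eq_two.1
        (show (T.erase v).card = 2 by rw [card_erase_of_mem hv, (hE T hT).2])
      have hp : p ∈ T := mem_of_mem_erase (by rw [hh]; simp)
      have hq : q ∈ T := mem_of_mem_erase (by rw [hh]; simp)
      refine segment_bound hV ((hE T hT).1 hp) ((hE T hT).1 hq) hpq _
        (fun e he => hE e (mem_filter.1 he).1) (fun e he => ?_)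
        (fun e he f hf g hg => hno e (mem_filter.1 he).1 f (mem_filter.1 hf).1 g
          (mem_filter.1 hg).1)
      obtain ⟨-, h1, h2⟩ := mem_filter.1 he
      exact ⟨disjoint_left.1 h1 hp, disjoint_left.1 h1 hq, hh ▸ h2⟩
    · rw [(hE T hT).2]
      omega
  have hsplit : ∀ T ∈ E, E.card ≤ 4 * B + (E.filter (fun U => R T U)).card +
      (E.filter (fun U => R U T)).card := by
    intro T hT
    have hD : (E.filter (fun U => Disjoint (hull T) (hull U))).card ≤ B := by
      by_contra hbig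
      obtain ⟨e, he, f, hf, hef⟩ := two_disjoint 3 (by norm_num) V hV _
        (fun e he => hE e (mem_filter.1 he).1) (not_le.1 hbig)
      exact hno T hT e (mem_filter.1 he).1 f (mem_filter.1 hf).1 (mem_filter.1 he).2
        (mem_filter.1 hf).2 hef
    have hS : (T.biUnion (fun v => E.filter (fun e => v ∈ e))).card ≤ 3 * B := by
      refine (card_biUnion_le_card_mul _ _ B (fun v _ => star_bound V E hE v)).trans ?_
      rw [(hE T hT).2]
    have hsub : E ⊆ ((E.filter (fun U => Disjoint (hull T) (hull U)) ∪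
        T.biUnion (fun v => E.filter (fun e => v ∈ e))) ∪ E.filter (fun U => R T U)) ∪
        E.filter (fun U => R U T) := by
      intro U hU
      simp only [mem_union]
      by_cases h1 : Disjoint (hull T) (hull U)
      · exact Or.inl (Or.inl (Or.inl (mem_filter.2 ⟨hU, h1⟩)))
      by_cases h2 : Disjoint T U
      · rcases edge_lemma T U (hE T hT).2 (hE U hU).2 h1 with h3 | h3
        · exact Or.inl (Or.inr (mem_filter.2 ⟨hU, h2, h3⟩))
        · exact Or.inr (mem_filter.2 ⟨hU, h2.symm, h3⟩)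
      · obtain ⟨v, hv, hv'⟩ := not_disjoint_iff.1 h2
        exact Or.inl (Or.inl (Or.inr (mem_biUnion.2 ⟨v, hv, mem_filter.2 ⟨hU, hv'⟩⟩)))
    have h1 := (card_le_card hsub).trans (card_union_le _ _)
    have h2 := card_union_le (E.filter (fun U => Disjoint (hull T) (hull U)) ∪
        T.biUnion (fun v => E.filter (fun e => v ∈ e))) (E.filter (fun U => R T U))
    have h3 := card_union_le (E.filter (fun U => Disjoint (hull T) (hull U)))
        (T.biUnion (fun v => E.filter (fun e => v ∈ e)))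
    omega
  have hswap : ∑ T ∈ E, (E.filter (fun U => R U T)).card =
      ∑ T ∈ E, (E.filter (fun U => R T U)).card := by
    simp only [card_filter]
    exact Finset.sum_comm
  have h1 : ∑ T ∈ E, E.card ≤ ∑ T ∈ E, (4 * B + (E.filter (fun U => R T U)).card +
      (E.filter (fun U => R U T)).card) := Finset.sum_le_sum hsplit
  have h2 : ∑ T ∈ E, (E.filter (fun U => R T U)).card ≤ ∑ T ∈ E, 6 * B := Finset.sum_le_sum hR
  rw [Finset.sum_add_distrib, Finset.sum_add_distrib, hswap] at h1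
  simp only [Finset.sum_const, smul_eq_mul] at h1 h2
  rcases Nat.eq_zero_or_pos E.card with h0 | h0
  · omega
  · have : E.card * E.card ≤ E.card * (16 * B) := by nlinarith
    exact Nat.le_of_mul_le_mul_left this h0

end Pool.Agent.P.MP_1f07eb_co.Three
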